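import Pool.Agent.H91.AC.Law
import Pool.Agent.H58.CD.Emb
import Pool.Agent.H58.CE.Par2
import Pool.Agent.H58.CE.Par3
import Pool.Agent.H91.MN.Low
import Pool.Agent.H2.AC.Num

set_option autoImplicit false
set_option maxHeartbeats 4000000

namespace Pool.Agent.Results.MP_0f984e_lc.ConstantDepthCertificates

/-! ### Orthogonal Vectors -/

/-- Positions of the `2n` input vectors: `(false, i)` is the `i`-th vector of `A`, and
`(true, j)` is the `j`-th vector of `B`. -/
abbrev Pos (n : ℕ) : Type := Bool × Fin n

/-- Vectors in `{0,1}^d`. -/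
abbrev Vec (d : ℕ) : Type := Fin d → Bool

/-- An input: `n` vectors of `A` and `n` vectors of `B`, all in `{0,1}^d`. -/
abbrev Input (n d : ℕ) : Type := Pos n → Vec d

/-- The list `A` (`b = false`) or the list `B` (`b = true`). -/
def list {n d : ℕ} (x : Input n d) (b : Bool) : Fin n → Vec d := fun i => x (b, i)

/-- Valid inputs: each of the two sets is listed in strictly increasing lexicographic order (so
each consists of exactly `n` distinct vectors, written in the canonical order). -/
def IsValid {n d : ℕ} (x : Input n d) : Prop :=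
  StrictMono (fun i : Fin n => toLex (x (false, i))) ∧
  StrictMono (fun j : Fin n => toLex (x (true, j)))

/-- The answer to the Orthogonal Vectors question: some vector of `A` and some vector of `B` have
inner product `0` over the integers. -/
def HasOrthogonalPair {n d : ℕ} (x : Input n d) : Prop :=
  ∃ i j : Fin n, ∑ k : Fin d, (x (false, i) k).toNat * (x (true, j) k).toNat = 0

/-! ### Circuits of constant depth -/

/-- A circuit for inputs of size `n, d` with `S` gates in `T` layers. A gate is the AND of any
number of literals: the literal `(z, b)` means that the input bit or the gate `z` (of a lower layer)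
has the value `b`, so NOT and OR gates are included. -/
structure Circuit (n d T S : ℕ) where
  /-- the layer of a gate -/
  layer : Fin S → Fin T
  /-- the literals of a gate -/
  lits : Fin S → Finset (((Pos n × Fin d) ⊕ Fin S) × Bool)
  /-- a gate reads only input bits and gates of lower layers -/
  lower : ∀ g, ∀ q ∈ lits g, ∀ h, q.1 = Sum.inr h → layer h < layer g
  /-- the output gate -/
  out : Fin S

variable {n d T S N : ℕ}

/-- The values of the gates after `t` layers have been evaluated. -/
def Circuit.valueAt (C : Circuit n d T S) (x : Input n d) : ℕ → Fin S → Bool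
  | 0, _ => false
  | t + 1, g => decide (∀ q ∈ C.lits g,
      Sum.elim (fun z : Pos n × Fin d => x z.1 z.2) (C.valueAt x t) q.1 = q.2)

/-- The value of a gate (see the theorem `value_iff`). -/
def Circuit.value (C : Circuit n d T S) (x : Input n d) (g : Fin S) : Bool :=
  C.valueAt x ((C.layer g : ℕ) + 1) g

/-- The gate depends only on one of the two lists. -/
def Circuit.OneSided (C : Circuit n d T S) (g : Fin S) : Prop :=
  ∃ b : Bool, ∀ x x' : Input n d, list x b = list x' b → C.value x g = C.value x' g

open Classical in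
/-- The number of gates which depend on both lists. -/
noncomputable def Circuit.twoSided (C : Circuit n d T S) : ℕ :=
  (Finset.univ.filter fun g : Fin S => ¬ C.OneSided g).card

/-- A family of circuits: one circuit for each of the `N` certificates. -/
abbrev Family (n d T S N : ℕ) : Type := Fin N → Circuit n d T S

/-- The circuit of some certificate has the output true: the family confirms that there is no
orthogonal pair. -/
def Confirms (A : Family n d T S N) (x : Input n d) : Prop :=
  ∃ w : Fin N, (A w).value x (A w).out = true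

/-! ### Values -/

theorem valueAt_eq (C : Circuit n d T S) (x : Input n d) (t : ℕ) (g : Fin S)
    (ht : (C.layer g : ℕ) < t) : C.valueAt x t g = C.value x g := by
  have main : ∀ m : ℕ, ∀ g : Fin S, (C.layer g : ℕ) = m → ∀ t, m < t →
      C.valueAt x t g = C.value x g := by
    intro m
    induction m using Nat.strong_induction_on with
    | _ m ih =>
      intro g hg t ht
      obtain ⟨t', rfl⟩ : ∃ t', t = t' + 1 := ⟨t - 1, by omega⟩
      unfold Circuit.value
      rw [hg]
      show decide (∀ q ∈ C.lits g, Sum.elim _ (C.valueAt x t') q.1 = q.2) =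
        decide (∀ q ∈ C.lits g, Sum.elim _ (C.valueAt x m) q.1 = q.2)
      congr 1
      apply propext
      refine forall₂_congr fun q hq => ?_
      obtain ⟨w, b⟩ := q
      rcases w with w | w
      · exact Iff.rfl
      · have h1 : (C.layer w : ℕ) < m := by
          have := C.lower g _ hq w rfl
          rw [Fin.lt_def, hg] at this
          exact this
        show C.valueAt x t' w = b ↔ C.valueAt x m w = b
        rw [ih _ h1 w rfl t' (by omega), ih _ h1 w rfl m h1]
  exact main _ g rfl t ht

/-- A gate is true if and only if all its literals are true. -/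
theorem value_iff (C : Circuit n d T S) (x : Input n d) (g : Fin S) :
    C.value x g = true ↔ ∀ q ∈ C.lits g,
      Sum.elim (fun z : Pos n × Fin d => x z.1 z.2) (C.value x) q.1 = q.2 := by
  show decide (∀ q ∈ C.lits g, Sum.elim _ (C.valueAt x (C.layer g)) q.1 = q.2) = true ↔ _
  rw [decide_eq_true_iff]
  refine forall₂_congr fun q hq => ?_
  obtain ⟨z, b⟩ := q
  rcases z with z | w
  · exact Iff.rfl
  · show C.valueAt x (C.layer g) w = b ↔ C.value x w = b
    rw [valueAt_eq C x _ w (C.lower g _ hq w rfl)]

/-! ### The upper bounds -/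

section upper

private theorem orth_iff {n d : ℕ} (x : Input n d) (i j : Fin n) :
    (∑ k : Fin d, (x (false, i) k).toNat * (x (true, j) k).toNat = 0) ↔
      ∀ k, ¬ (x (false, i) k = true ∧ x (true, j) k = true) := by
  rw [Finset.sum_eq_zero_iff]
  constructor
  · rintro h k ⟨h1, h2⟩
    have h3 := h k (Finset.mem_univ k)
    rw [h1, h2] at h3
    simp at h3
  · intro h k _
    have h3 := h k
    cases h1 : x (false, i) k <;> cases h2 : x (true, j) k <;> simp_all

private theorem has_iff {n d : ℕ} (x : Input n d) : HasOrthogonalPair x ↔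
    ∃ i j : Fin n, ∀ k, ¬ (x (false, i) k = true ∧ x (true, j) k = true) :=
  exists_congr fun i => exists_congr fun j => orth_iff x i j

/-- a circuit from gates indexed by a finite type -/
private theorem ofType {Γ : Type} (e : Fin S ≃ Γ) (lay : Γ → Fin T)
    (lt : Γ → Finset (((Pos n × Fin d) ⊕ Γ) × Bool))
    (hlow : ∀ g, ∀ q ∈ lt g, ∀ h, q.1 = Sum.inr h → lay h < lay g) (o : Γ)
    (v : Input n d → Γ → Bool) (hv : ∀ x g, v x g = true ↔ ∀ q ∈ lt g,
      Sum.elim (fun z : Pos n × Fin d => x z.1 z.2) (v x) q.1 = q.2) :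
    ∃ C : Circuit n d T S, C.out = e.symm o ∧ ∀ x g, C.value x g = v x (e g) := by
  classical
  let C : Circuit n d T S :=
    { layer := fun g => lay (e g)
      lits := fun g => (lt (e g)).image fun q => (Sum.map id e.symm q.1, q.2)
      lower := by
        intro g q hq h hh
        obtain ⟨⟨z, b⟩, hq', rfl⟩ := Finset.mem_image.1 hq
        rcases z with z | z
        · simp at hh
        · have e1 : e.symm z = h := by simpa using hh
          subst e1
          have := hlow (e g) _ hq' z rfl
          simpa using this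
      out := e.symm o }
  refine ⟨C, rfl, ?_⟩
  have main : ∀ m : ℕ, ∀ x : Input n d, ∀ g : Fin S, (C.layer g : ℕ) = m →
      C.value x g = v x (e g) := by
    intro m
    induction m using Nat.strong_induction_on with
    | _ m ih =>
      intro x g hg
      apply Bool.eq_iff_iff.2
      rw [value_iff, hv]
      show (∀ q ∈ (lt (e g)).image fun q => (Sum.map id e.symm q.1, q.2), _) ↔ _
      rw [Finset.forall_mem_image]
      refine forall₂_congr fun q hq => ?_
      obtain ⟨z, b⟩ := q
      rcases z with z | z
      · exact Iff.rfl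
      · have h1 : (C.layer (e.symm z) : ℕ) < m := by
          have h2 := hlow (e g) _ hq z rfl
          rw [← hg]
          show (lay (e (e.symm z)) : ℕ) < lay (e g)
          rw [Equiv.apply_symm_apply]
          exact h2
        show C.value x (e.symm z) = b ↔ v x z = b
        rw [ih _ h1 x (e.symm z) rfl, Equiv.apply_symm_apply]
  exact fun x g => main _ x g rfl

/-- one circuit, without a certificate -/
theorem one (n d : ℕ) : ∃ A : Family n d 3 (n * n * d + n * n + 1) 1,
    ∀ x, Confirms A x ↔ ¬ HasOrthogonalPair x := by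
  classical
  obtain ⟨e⟩ : Nonempty (Fin (n * n * d + n * n + 1) ≃
      (((Fin n × Fin n) × Fin d) ⊕ ((Fin n × Fin n) ⊕ Unit))) := by
    refine ⟨(Fintype.equivFinOfCardEq ?_).symm⟩
    simp [Fintype.card_sum, Fintype.card_prod]
    ring
  obtain ⟨C, hC, hval⟩ := ofType (n := n) (d := d) (T := 3) e
    (Sum.elim (fun _ => 0) (Sum.elim (fun _ => 1) fun _ => 2))
    (Sum.elim (fun p => {(Sum.inl ((false, p.1.1), p.2), true), (Sum.inl ((true, p.1.2), p.2), true)})
      (Sum.elim (fun p => Finset.univ.image fun c : Fin d => (Sum.inr (Sum.inl (p, c)), false))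
        fun _ => Finset.univ.image fun p : Fin n × Fin n => (Sum.inr (Sum.inr (Sum.inl p)), false)))
    (by
      intro g q hq h hh
      rcases g with p | p | p
      · simp only [Sum.elim_inl, Finset.mem_insert, Finset.mem_singleton] at hq
        rcases hq with rfl | rfl
        · exact absurd hh (by simp)
        · exact absurd hh (by simp)
      · simp only [Sum.elim_inr, Sum.elim_inl, Finset.mem_image, Finset.mem_univ, true_and] at hq
        obtain ⟨c, rfl⟩ := hq
        have : h = Sum.inl (p, c) := (Sum.inr_injective hh).symm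
        subst this
        show (0 : Fin 3) < 1
        decide
      · simp only [Sum.elim_inr, Finset.mem_image, Finset.mem_univ, true_and] at hq
        obtain ⟨c, rfl⟩ := hq
        have : h = Sum.inr (Sum.inl c) := (Sum.inr_injective hh).symm
        subst this
        show (1 : Fin 3) < 2
        decide)
    (Sum.inr (Sum.inr ()))
    (fun x => Sum.elim (fun p => decide (x (false, p.1.1) p.2 = true ∧ x (true, p.1.2) p.2 = true))
      (Sum.elim (fun p => decide (∀ c, ¬ (x (false, p.1) c = true ∧ x (true, p.2) c = true)))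
        fun _ => decide (∀ p : Fin n × Fin n,
          ¬ ∀ c, ¬ (x (false, p.1) c = true ∧ x (true, p.2) c = true))))
    (by
      intro x g
      rcases g with p | p | p
      · simp
      · simp
      · simp)
  refine ⟨fun _ => C, fun x => ?_⟩
  unfold Confirms
  rw [has_iff]
  constructor
  · rintro ⟨w, hw⟩ ⟨i, j, hij⟩
    rw [hval, hC, Equiv.apply_symm_apply] at hw
    simp only [Sum.elim_inr, decide_eq_true_eq] at hw
    exact hw (i, j) hij
  · intro h
    refine ⟨0, ?_⟩
    rw [hval, hC, Equiv.apply_symm_apply]
    simp only [Sum.elim_inr, decide_eq_true_eq]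
    intro p hp
    exact h ⟨p.1, p.2, hp⟩

/-- with `n d` bits of certificate one two-sided gate is enough -/
theorem many (n d : ℕ) : ∃ A : Family n d 2 (n * n + 2) (2 ^ (n * d)),
    (∀ w, (A w).twoSided ≤ 1) ∧ ∀ x, Confirms A x ↔ ¬ HasOrthogonalPair x := by
  classical
  obtain ⟨e⟩ : Nonempty (Fin (n * n + 2) ≃ ((Fin n × Fin n) ⊕ (Unit ⊕ Unit))) := by
    refine ⟨(Fintype.equivFinOfCardEq ?_).symm⟩
    simp [Fintype.card_sum, Fintype.card_prod]
  obtain ⟨f⟩ : Nonempty (Fin (2 ^ (n * d)) ≃ (Fin n → Vec d)) := by
    refine ⟨(Fintype.equivFinOfCardEq ?_).symm⟩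
    rw [Fintype.card_fun, Fintype.card_fun, Fintype.card_bool, Fintype.card_fin, Fintype.card_fin,
      ← pow_mul, mul_comm]
  have key : ∀ β : Fin n → Vec d, ∃ C : Circuit n d 2 (n * n + 2), C.twoSided ≤ 1 ∧
      ∀ x, C.value x C.out = true ↔ (list x true = β ∧ ¬ HasOrthogonalPair x) := by
    intro β
    obtain ⟨C, hC, hval⟩ := ofType (n := n) (d := d) (T := 2) e
      (Sum.elim (fun _ => 0) (Sum.elim (fun _ => 0) fun _ => 1))
      (Sum.elim (fun p => (Finset.univ.filter fun c : Fin d => β p.2 c = true).image
          fun c => (Sum.inl ((false, p.1), c), false))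
        (Sum.elim (fun _ => Finset.univ.image fun q : Fin n × Fin d =>
            (Sum.inl ((true, q.1), q.2), β q.1 q.2))
          fun _ => insert (Sum.inr (Sum.inr (Sum.inl ())), true)
            (Finset.univ.image fun p : Fin n × Fin n => (Sum.inr (Sum.inl p), false))))
      (by
        intro g q hq h hh
        rcases g with p | p | p
        · simp only [Sum.elim_inl, Finset.mem_image] at hq
          obtain ⟨c, _, rfl⟩ := hq
          exact absurd hh (by simp)
        · simp only [Sum.elim_inr, Sum.elim_inl, Finset.mem_image] at hq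
          obtain ⟨c, _, rfl⟩ := hq
          exact absurd hh (by simp)
        · simp only [Sum.elim_inr, Finset.mem_insert, Finset.mem_image, Finset.mem_univ,
            true_and] at hq
          rcases hq with rfl | ⟨c, rfl⟩
          · have : h = Sum.inr (Sum.inl ()) := (Sum.inr_injective hh).symm
            subst this
            show (0 : Fin 2) < 1
            decide
          · have : h = Sum.inl c := (Sum.inr_injective hh).symm
            subst this
            show (0 : Fin 2) < 1
            decide)
      (Sum.inr (Sum.inr ()))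
      (fun x => Sum.elim (fun p => decide (∀ c, β p.2 c = true → x (false, p.1) c = false))
        (Sum.elim (fun _ => decide (∀ q : Fin n × Fin d, x (true, q.1) q.2 = β q.1 q.2))
          fun _ => decide ((∀ q : Fin n × Fin d, x (true, q.1) q.2 = β q.1 q.2) ∧
            ∀ p : Fin n × Fin n, ¬ ∀ c, β p.2 c = true → x (false, p.1) c = false)))
      (by
        intro x g
        rcases g with p | p | p
        · simp
        · show decide (∀ q : Fin n × Fin d, x (true, q.1) q.2 = β q.1 q.2) = true ↔ _
          rw [decide_eq_true_iff]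
          constructor
          · intro h q hq
            obtain ⟨c, _, rfl⟩ := Finset.mem_image.1 hq
            exact h c
          · intro h c
            exact h _ (Finset.mem_image.2 ⟨c, Finset.mem_univ _, rfl⟩)
        · simp)
    have hone : ∀ g : Fin (n * n + 2), e g ≠ Sum.inr (Sum.inr ()) → C.OneSided g := by
      intro g hg
      obtain ⟨y, hy⟩ : ∃ y, y = e g := ⟨_, rfl⟩
      rw [← hy] at hg
      rcases y with p | p | p
      · refine ⟨false, fun x x' h => ?_⟩
        rw [hval, hval, ← hy]
        have h1 : ∀ i, x (false, i) = x' (false, i) := fun i => congrFun h i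
        simp only [Sum.elim_inl]
        rw [h1]
      · refine ⟨true, fun x x' h => ?_⟩
        rw [hval, hval, ← hy]
        have h1 : ∀ i, x (true, i) = x' (true, i) := fun i => congrFun h i
        simp only [Sum.elim_inr, Sum.elim_inl]
        simp only [h1]
      · exact absurd rfl hg
    refine ⟨C, ?_, fun x => ?_⟩
    · unfold Circuit.twoSided
      refine (Finset.card_le_card (t := {e.symm (Sum.inr (Sum.inr ()))}) fun g hg => ?_).trans
        (by simp)
      rw [Finset.mem_singleton, Equiv.eq_symm_apply]
      by_contra hcon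
      exact (Finset.mem_filter.1 hg).2 (hone g hcon)
    · rw [hval, hC, Equiv.apply_symm_apply]
      simp only [Sum.elim_inr, decide_eq_true_eq]
      rw [has_iff]
      have h1 : list x true = β ↔ ∀ q : Fin n × Fin d, x (true, q.1) q.2 = β q.1 q.2 := by
        constructor
        · rintro rfl q
          rfl
        · intro h
          funext i c
          exact h (i, c)
      rw [h1]
      refine and_congr_right fun h2 => ?_
      rw [not_exists]
      constructor
      · rintro h i ⟨j, hj⟩
        refine h (i, j) fun c hc => ?_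
        have h3 := hj c
        rw [h2 (j, c)] at h3
        cases h4 : x (false, i) c with
        | false => rfl
        | true => exact absurd ⟨h4, hc⟩ h3
      · rintro h p hp
        refine h p.1 ⟨p.2, fun c hc => ?_⟩
        rw [h2 (p.2, c)] at hc
        rw [hp c hc.2] at hc
        exact absurd hc.1 (by simp)
  choose C hC using key
  refine ⟨fun w => C (f w), fun w => (hC _).1, fun x => ?_⟩
  unfold Confirms
  constructor
  · rintro ⟨w, hw⟩
    exact (((hC (f w)).2 x).1 hw).2
  · intro h
    refine ⟨f.symm (list x true), ((hC _).2 x).2 ⟨?_, h⟩⟩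
    rw [Equiv.apply_symm_apply]

end upper

section lower

open Pool.Agent.H58 Pool.Agent.H58.OVAC Pool.Agent.H58.OVPR Pool.Agent.H58.CD Pool.Agent.H58.CE
  Pool.Agent.H2.AC Pool.Agent.H91.AC

/-- a circuit as a net on the inputs -/
private def netC (C : Circuit n d T S) : Net (OVAC.Pos n × Fin d) (OVAC.Input n d) S T where
  inp q x := x q.1 q.2
  lits := C.lits
  layer := C.layer
  lower := C.lower
  val g x := C.value x g
  val_iff g x := value_iff C x g

private theorem fam_code {D k l : ℕ} (code : Fin n → Fin l → Bool) (b : Bool)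
    (y y' : Co n D → Fin k) (hy : ∀ p, p.1.1 = b → y p = y' p) :
    list (code₁ (d := d) code y) b = list (code₁ code y') b := by
  funext i
  show code₁ code y (b, i) = code₁ code y' (b, i)
  unfold code₁
  congr 1
  funext c
  exact hy _ rfl

/-- the exceptional pairs for one circuit -/
private theorem exc {ι : Type} [Fintype ι] {D k s L K c : ℕ} (hk : 1 ≤ k) (hL : 1 ≤ L)
    (hs : s ≤ 2 ^ (L + 1)) (M : Net ι (Co n D → Fin k) s T) (hin : ∀ i, DepOne (M.inp i))
    (o : Fin s) (I : Finset (Fin s)) (hI : I.card ≤ c) :
    (av fun z : Co n D → Fin k => pr fun z' : Co n D → Fin k =>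
      EX M vec ∅ o I (Pool.Agent.H2.AC.snB L T 0 K) (pfB L T 0 K (2 * n) c) z z') ≤
      snD L T K + pfD L T K := by
  classical
  have hX : Nonempty (Fin k) := ⟨⟨0, by omega⟩⟩
  have h1 := net_sn_blk (K := K) hL hs M hin (vec (n := n) (D := D)) ∅ o
  have h2 := net_pf_blk (K := K) hL hs I M hin (vec (n := n) (D := D)) ∅
  have h3 : Fintype.card (Bool × Fin n) = 2 * n := by
    rw [Fintype.card_prod, Fintype.card_bool, Fintype.card_fin]
  rw [h3] at h2
  refine le_trans ?_ (add_le_add h1 h2)
  rw [← av_add]
  refine av_mono fun z => (pr_or_le _ _).trans (add_le_add le_rfl (pr_mono fun z' h => ?_))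
  refine lt_of_le_of_lt ?_ h
  unfold pfB
  exact Nat.mul_le_mul_left _ (Nat.add_le_add_left (Nat.mul_le_mul_left _ hI) _)

theorem lower : ∃ C : ℕ, ∀ n d T S s N a P : ℕ, 2 ≤ n →
    P = (C * Nat.clog 2 (n * (S + 1))) ^ (C * (T + 1)) → P ≤ d → (a + 1) * P ≤ n →
    ∀ ρ : ℝ, 0 < ρ → (N : ℝ) ≤ ρ * 2 ^ a → ∀ μ : PMF (Family n d T S N),
      (∀ A ∈ μ.support, ∀ w, (A w).twoSided ≤ s) →
      (∀ x : Input n d, IsValid x → ¬ HasOrthogonalPair x →
        ENNReal.ofReal ρ ≤ μ.toOuterMeasure {A | Confirms A x}) →
      (∀ x : Input n d, IsValid x → HasOrthogonalPair x →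
        μ.toOuterMeasure {A | Confirms A x} ≤ ENNReal.ofReal (ρ / 2)) →
      n ^ 2 ≤ s * P := by
  classical
  refine ⟨2 ^ 20, ?_⟩
  intro n d T S s N a P hn hP hd haP ρ hρ0 hN μ hs hno hyes
  by_contra hcon
  rw [not_le] at hcon
  obtain ⟨L, hL⟩ : ∃ L, L = Nat.clog 2 (n * (S + 1)) := ⟨_, rfl⟩
  obtain ⟨l, hl⟩ : ∃ l, l = Nat.clog 2 n := ⟨_, rfl⟩
  rw [← hL] at hP
  have hn1 : n * 1 ≤ n * (S + 1) := Nat.mul_le_mul_left n (by omega)
  have hS1 : 1 * (S + 1) ≤ n * (S + 1) := Nat.mul_le_mul_right (S + 1) (by omega)
  have hle : n * (S + 1) ≤ 2 ^ L := by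
    rw [hL]
    exact Nat.le_pow_clog (by norm_num) _
  have hnL : n ≤ 2 ^ L := by omega
  have hSL : S + 1 ≤ 2 ^ L := by omega
  have hL1 : 1 ≤ L := by
    rw [hL]
    exact Nat.clog_pos (by norm_num) (by omega)
  have hlL : l ≤ L := by
    rw [hl, hL]
    exact Nat.clog_mono_right 2 (by omega)
  have hnl : n ≤ 2 ^ l := by
    rw [hl]
    exact Nat.le_pow_clog (by norm_num) n
  have hPn : P ≤ n := by
    have h1 : 1 * P ≤ (a + 1) * P := Nat.mul_le_mul_right P (by omega)
    omega
  -- the trivial case
  have hT : (32 * qS₁ L) ^ (T + 1) ≤ 2 ^ (64 * L) := by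
    by_contra hT
    rw [not_le] at hT
    have h1 := qnum_triv (n := n) (T := T) (h := 0) (L := L) hnL hL1 (by simpa using hT)
    rw [Nat.zero_add, ← hP] at h1
    have h2 : n ^ 2 = n * n := by ring
    have h3 : 2 * n ≤ n * n := Nat.mul_le_mul_right n hn
    omega
  obtain ⟨k, hk⟩ : ∃ k, k = qK T L := ⟨_, rfl⟩
  obtain ⟨D, hD⟩ : ∃ D, D = qD T L l := ⟨_, rfl⟩
  have hk2 : 2 ≤ k := by
    rw [hk]
    unfold qK
    have h1 : 1 ≤ (T + 2) * (CE.snB T (qS₁ L) + 2) := Nat.mul_pos (by omega) (by omega)
    have h2 : 100000 * (T + 2) * (CE.snB T (qS₁ L) + 2) =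
        100000 * ((T + 2) * (CE.snB T (qS₁ L) + 2)) := by ring
    omega
  have hDk : D = k * (2 * l + 5) := by
    rw [hD, hk]
    rfl
  have hdim : 2 * l + D * k ≤ d := by
    have h1 := qnum_dim (T := T) (h := 0) hlL hL1
    rw [Nat.zero_add, ← hP, ← hD, ← hk] at h1
    exact h1.trans hd
  obtain ⟨code, hcode⟩ := exists_code hnl
  have hcode₁ : ∀ y : Co n D → Fin k, code₁ (d := d) code y =
      OVAC.tst (OVAC.emb d code) (fun i c => y ((false, i), c)) fun j c => y ((true, j), c) := by
    intro y
    funext p
    obtain ⟨b, i⟩ := p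
    cases b with
    | false => simp [code₁, OVAC.tst]
    | true => simp [code₁, OVAC.tst]
  have hval : ∀ y : Co n D → Fin k, IsValid (code₁ (d := d) code y) := by
    intro y
    rw [hcode₁ y]
    exact OVAC.emb_valid hdim code hcode _ _
  have horth : ∀ y : Co n D → Fin k,
      HasOrthogonalPair (code₁ (d := d) code y) ↔ ∃ i j : Fin n,
        Off (fun c => y ((false, i), c)) (fun c => y ((true, j), c)) := by
    intro y
    rw [hcode₁ y]
    exact exists_congr fun i => exists_congr fun j => OVAC.emb_orthogonal hdim code _ _ i j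
  have hneX : Nonempty (Fin k) := ⟨⟨0, by omega⟩⟩
  have hneT : Nonempty (PTest n k D n 1) := by
    refine ⟨(fun _ => ⟨0, by omega⟩, ((⟨0, by omega⟩, ⟨0, by omega⟩), (⟨0, by omega⟩,
      ⟨0, by omega⟩)), ⟨(fun _ => ⟨0, by omega⟩, fun _ => ⟨1, by omega⟩), fun c hh => ?_⟩)⟩
    simp at hh
  have hplant : ∀ τ : PTest n k D n 1,
      HasOrthogonalPair (code₁ (d := d) code (τ.y fun a _ => a)) := by
    intro τ
    rw [horth]
    refine ⟨τ.2.1.1.1, τ.2.1.1.2, ?_⟩
    have h1 : (fun c => τ.y (fun a _ => a) ((false, τ.2.1.1.1), c)) = τ.2.2.1.1 := by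
      funext c
      simp [PTest.y, plant]
    have h2 : (fun c => τ.y (fun a _ => a) ((true, τ.2.1.1.2), c)) = τ.2.2.1.2 := by
      funext c
      simp [PTest.y, plant]
    rw [h1, h2]
    exact τ.2.2.2
  -- the law
  obtain ⟨K, hK⟩ : ∃ K, K = a + 26 * L * (T + 1) := ⟨_, rfl⟩
  have hnum := num_main hn hnL hSL hlL hL1 hT (a := a) (s := s) (by rw [← hP]; exact haP)
    (by rw [← hP]; exact hcon)
  have htail := num_tail (T := T) (a := a) hL1
  rw [← hK, ← hk, ← hD] at hnum
  rw [← hK] at htail
  have hlaw : ∀ A ∈ μ.support,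
      7 / 10 * (pr fun z : Co n D → Fin k => Confirms A (code₁ code z)) ≤
        (pr fun τ : PTest n k D n 1 => Confirms A (code₁ code (τ.y fun a _ => a))) +
          ρ / 100 := by
    intro A hA
    have hemb : ∀ w : Fin N, ∃ M : Net (Option (Co n D × Fin k)) (Co n D → Fin k) S T,
        (∀ i, DepOne (M.inp i)) ∧ ∀ g y, M.val g y = (A w).value (code₁ code y) g := fun w =>
      embed_net code (netC (A w)) fun q x => rfl
    choose M hM1 hM2 using hemb
    have hS2 : S ≤ 2 ^ (L + 1) := by
      have : 2 ^ L ≤ 2 ^ (L + 1) := Nat.pow_le_pow_right (by norm_num) (by omega)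
      omega
    have hI : ∀ w g, g ∉ (Finset.univ.filter fun g : Fin S => ¬ (A w).OneSided g) →
        CD.OneSided ((M w).val g) := by
      intro w g hg
      have h1 : (A w).OneSided g := by
        by_contra h2
        exact hg (Finset.mem_filter.2 ⟨Finset.mem_univ _, h2⟩)
      obtain ⟨b, hb⟩ := h1
      refine ⟨b, fun x x' hx => ?_⟩
      rw [hM2, hM2]
      exact hb _ _ (fam_code code b x x' hx)
    have h1 := law hk2 M hM1 (fun w => (A w).out)
      (fun w => Finset.univ.filter fun g : Fin S => ¬ (A w).OneSided g) hI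
      (Pool.Agent.H2.AC.snB L T 0 K) (pfB L T 0 K (2 * n) s) (s₁ := qS₁ L)
      (G := qG n S T L l) (by unfold qS₁; omega) (by
        rw [Fintype.card_option, Fintype.card_prod, Fintype.card_prod, Fintype.card_prod,
          Fintype.card_bool, Fintype.card_fin, Fintype.card_fin, Fintype.card_fin, hD, hk]
        exact le_rfl)
      (δ := snD L T K + pfD L T K)
      (fun w => exc (by omega) hL1 hS2 (M w) (hM1 w) _ _ (by
        refine le_trans (le_of_eq ?_) (hs A hA w)
        unfold Circuit.twoSided
        congr)) (by omega)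
    have hp1 : (pr fun z : Co n D → Fin k => ∃ w, (M w).val (A w).out z = true) =
        pr fun z : Co n D → Fin k => Confirms A (code₁ code z) := by
      refine pr_congr fun z => exists_congr fun w => ?_
      rw [hM2]
    have hp2 : (pr fun τ : PTest n k D n 1 =>
        ∃ w, (M w).val (A w).out (τ.y fun a _ => a) = true) =
        pr fun τ : PTest n k D n 1 => Confirms A (code₁ code (τ.y fun a _ => a)) := by
      refine pr_congr fun z => exists_congr fun w => ?_
      rw [hM2]
    rw [hp1, hp2] at h1
    set X : ℝ := pr fun z : Co n D → Fin k => Confirms A (code₁ code z) with hX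
    set Y : ℝ := pr fun τ : PTest n k D n 1 => Confirms A (code₁ code (τ.y fun a _ => a))
      with hY
    have hX0 : 0 ≤ X := pr_nonneg _
    have hδ0 : 0 ≤ snD L T K + pfD L T K := by
      unfold snD pfD
      positivity
    have hδ : 3 * ((N : ℝ) * (snD L T K + pfD L T K)) ≤ ρ / 100 := by
      calc 3 * ((N : ℝ) * (snD L T K + pfD L T K))
          ≤ 3 * (ρ * 2 ^ a * (snD L T K + pfD L T K)) := by
            have := mul_le_mul_of_nonneg_right hN hδ0
            linarith
        _ = ρ * (3 * 2 ^ a * (snD L T K + pfD L T K)) := by ring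
        _ ≤ ρ * (1 / 100) := mul_le_mul_of_nonneg_left htail hρ0.le
        _ = ρ / 100 := by ring
    have h2 := mul_le_mul_of_nonneg_right hnum hX0
    have hn0 : (0 : ℝ) < (n : ℝ) ^ 2 := by
      have : (0 : ℝ) < n := by exact_mod_cast (by omega : 0 < n)
      positivity
    have h3 := mul_le_mul_of_nonneg_left hδ hn0.le
    have h4 : (n : ℝ) ^ 2 * (7 / 10 * X) ≤ (n : ℝ) ^ 2 * (Y + ρ / 100) := by nlinarith
    exact le_of_mul_le_mul_left h4 hn0
  -- random inputs have no orthogonal pair
  set off : (Co n D → Fin k) → Prop := fun y =>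
    ∃ i j : Fin n, Off (fun c => y ((false, i), c)) (fun c => y ((true, j), c)) with hoff
  have hoffle : pr off ≤ 1 / 32 := pr_off_le (n := n) (k := k) (D := D) (l := l) hk2 hDk hnl
  have hρ1 : ρ ≤ 1 := by
    obtain ⟨z, hz⟩ : ∃ z, ¬ off z := by
      by_contra hcon
      push Not at hcon
      have h1 : pr off = 1 := by
        have h2 : pr (fun _ : Co n D → Fin k => True) = 1 := by
          unfold pr
          simp only [if_true]
          exact av_const 1
        rw [← h2]
        exact pr_congr fun z => iff_of_true (hcon z) trivial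
      linarith
    have h1 := (hno _ (hval z) (fun h => hz ((horth z).1 h))).trans (le_one μ _)
    exact (ENNReal.ofReal_le_ofReal_iff zero_le_one).1 h1
  -- averaging
  obtain ⟨A, hA, hsum⟩ := Pool.Agent.H91.MN.yaoW μ
    (fun A (z : Co n D → Fin k) => ¬ Confirms A (code₁ code z))
    (fun A (τ : PTest n k D n 1) => Confirms A (code₁ code (τ.y fun a _ => a)))
    (fun z => if off z then 1 else 1 - ρ) (fun _ => ρ / 2)
    (fun z => by split_ifs <;> linarith) (fun _ => by positivity)
    (fun z => by
      by_cases h : off z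
      · simp only [h, if_true]
        exact le_one μ _
      · simp only [h, if_false]
        refine Pool.Agent.H91.MN.compl_le' μ _ hρ0.le hρ1 ?_
        simp only [not_not]
        exact hno _ (hval _) (fun h' => h ((horth z).1 h')))
    (fun τ => hyes _ (hval _) (hplant τ)) (c := 7 / 10) (by norm_num)
  have hav : (av fun z => if off z then (1 : ℝ) else 1 - ρ) = 1 - ρ + ρ * pr off := by
    have h1 : ∀ z, (if off z then (1 : ℝ) else 1 - ρ) = (1 - ρ) + ρ * (if off z then 1 else 0) := by
      intro z
      split_ifs <;> ring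
    simp only [h1]
    rw [av_add, av_const, av_mul_left]
    congr 2
    unfold pr
    congr 1
    funext z
    congr
  rw [hav, av_const, pr_not] at hsum
  have h1 := hlaw A hA
  have h2 : ρ * pr off ≤ ρ * (1 / 32) := mul_le_mul_of_nonneg_left hoffle hρ0.le
  nlinarith

end lower

/-! ### Main theorem -/

/-- There is a number `C` such that, for `n ≥ 2`, `P = (C log₂ (n (S+1))) ^ (C (T+1))`, `d ≥ P` and
`a ≤ n / P - 1`, the following holds for every `ρ > 0` and every probability distribution on
families of `N ≤ ρ 2 ^ a` circuits with `S` gates in `T` layers, at most `s` of them two-sided: if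
every valid input without an orthogonal pair is confirmed with probability at least `ρ`, and every
valid input with an orthogonal pair with probability at most `ρ / 2`, then `n ^ 2 ≤ s P`. On the
other hand there is one circuit with `n² d + n² + 1` gates in three layers which is always correct,
and a family of `2 ^ (n d)` circuits with `n² + 2` gates in two layers, only one of them two-sided,
which is always correct. -/
theorem result :
    (∃ C : ℕ, ∀ n d T S s N a P : ℕ, 2 ≤ n →
      P = (C * Nat.clog 2 (n * (S + 1))) ^ (C * (T + 1)) → P ≤ d → (a + 1) * P ≤ n →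
      ∀ ρ : ℝ, 0 < ρ → (N : ℝ) ≤ ρ * 2 ^ a → ∀ μ : PMF (Family n d T S N),
        (∀ A ∈ μ.support, ∀ w, (A w).twoSided ≤ s) →
        (∀ x : Input n d, IsValid x → ¬ HasOrthogonalPair x →
          ENNReal.ofReal ρ ≤ μ.toOuterMeasure {A | Confirms A x}) →
        (∀ x : Input n d, IsValid x → HasOrthogonalPair x →
          μ.toOuterMeasure {A | Confirms A x} ≤ ENNReal.ofReal (ρ / 2)) →
        n ^ 2 ≤ s * P) ∧
    (∀ n d : ℕ, ∃ A : Family n d 3 (n * n * d + n * n + 1) 1,
      ∀ x, Confirms A x ↔ ¬ HasOrthogonalPair x) ∧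
    (∀ n d : ℕ, ∃ A : Family n d 2 (n * n + 2) (2 ^ (n * d)),
      (∀ w, (A w).twoSided ≤ 1) ∧ ∀ x, Confirms A x ↔ ¬ HasOrthogonalPair x) :=
  ⟨lower, one, many⟩

end Pool.Agent.Results.MP_0f984e_lc.ConstantDepthCertificates
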