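import Pool.Agent.H2.PF.Low
import Pool.Agent.H2.PF.Upp

set_option autoImplicit false

namespace Pool.Agent.Results.MP_0f984e_lc.ConstantDepthFeatures

open Pool.Agent.H2.PF

/-- The Orthogonal Vectors hypothesis for the polynomial method with features computed by circuits
of depth `T + 1` with `n ^ k` gates, in dimension `c (C (k + 1) log n) ^ T log n`, and the sharpness
of the exponent for `T = 0`. The model is defined in `Pool.Agent.H2.PF.Defs`. -/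
theorem result :
    -- the lower bound
    (∃ C κ : ℝ, 0 < C ∧ 0 < κ ∧ ∀ (k T : ℕ) (c : ℝ), 2 ≤ c →
      ∀ (n d s q w pA pB : ℕ) (P : Partition n pA pB) (F : Type) [Field F],
        2 ≤ n → c * (C * ((k : ℝ) + 1) * Real.logb 2 n) ^ T * Real.logb 2 n ≤ d →
        (s : ℝ) ≤ (n : ℝ) ^ k → (q : ℝ) ≤ (n : ℝ) ^ (1 / Real.logb 2 c) →
        (w : ℝ) ≤ (n : ℝ) ^ (1 / Real.logb 2 c) → pB ≤ pA →
        ∀ μ : PMF (Algorithm F n d (T + 1) s q w pA pB P),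
          (∀ x : Input n d, IsValid x → 2 / 3 ≤ μ.toOuterMeasure {C | C.CorrectOn x}) →
          κ * (n : ℝ) ^ (2 - C * ((k : ℝ) + 1) / Real.logb 2 c) ≤ (pA : ℝ) * pB) ∧
    -- the upper bound
    (∃ δ : ℝ, 0 < δ ∧ ∀ (c : ℝ), 2 ≤ c → ∃ n0 : ℕ, ∀ n d : ℕ, n0 ≤ n →
      (d : ℝ) ≤ c * Real.logb 2 n →
      ∃ (s q p : ℕ) (P : Partition n p p) (μ : PMF (Algorithm (ZMod 2) n d 1 s q 0 p p P)),
        (q : ℝ) ≤ (n : ℝ) ^ (1 / Real.logb 2 c) ∧ (∀ C ∈ μ.support, C.IsProduct) ∧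
        (∀ x : Input n d, 2 / 3 ≤ μ.toOuterMeasure {C | C.CorrectOn x}) ∧
        (p : ℝ) * p + s ≤ (n : ℝ) ^ (2 - δ / Real.logb 2 c)) :=
  ⟨lower, upper⟩

end Pool.Agent.Results.MP_0f984e_lc.ConstantDepthFeatures
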