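import Pool.Agent.H58.CE.Emb2
import Pool.Agent.H58.CE.DetQ
import Pool.Agent.H58.CD.Yao

set_option autoImplicit false
set_option maxHeartbeats 4000000

namespace Pool.Agent.Results.MP_0f984e_lc.StepCircuits

/-! ### Orthogonal Vectors -/

/-- Positions of the `2n` input vectors: `(false, i)` is the `i`-th vector of `A`, and
`(true, j)` is the `j`-th vector of `B`. -/
abbrev Pos (n : ℕ) : Type := Bool × Fin n

/-- Vectors in `{0,1}^d`. -/
abbrev Vec (d : ℕ) : Type := Fin d → Bool

/-- An input: `n` vectors of `A` and `n` vectors of `B`, all in `{0,1}^d`. -/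
abbrev Input (n d : ℕ) : Type := Pos n → Vec d

/-- The list `A` (`b = false`) or the list `B` (`b = true`). -/
def list {n d : ℕ} (x : Input n d) (b : Bool) : Fin n → Vec d := fun i => x (b, i)

/-- Valid inputs: each of the two sets is listed in strictly increasing lexicographic order (so
each consists of exactly `n` distinct vectors, written in the canonical order). -/
def IsValid {n d : ℕ} (x : Input n d) : Prop :=
  StrictMono (fun i : Fin n => toLex (x (false, i))) ∧
  StrictMono (fun j : Fin n => toLex (x (true, j)))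

/-- The answer to the Orthogonal Vectors question: some vector of `A` and some vector of `B` have
inner product `0` over the integers. -/
def HasOrthogonalPair {n d : ℕ} (x : Input n d) : Prop :=
  ∃ i j : Fin n, ∑ k : Fin d, (x (false, i) k).toNat * (x (true, j) k).toNat = 0

/-! ### Circuits of constant depth with step gates on all layers -/

/-- A step function with at most `J` jumps: it is constant off and between at most `J` points. -/
def IsStep {α : Type} (J : ℕ) (f : ℝ → α) : Prop :=
  ∃ D : Finset ℝ, D.card ≤ J ∧ ∀ a b : ℝ, a ≤ b → (∀ y ∈ D, y < a ∨ b < y) → f a = f b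

/-- A circuit for inputs of size `n, d` with `s` AND gates and `h` inner step gates in `T` layers,
and `H` top step gates. An AND gate is the AND of any number of literals: the literal `(z, b)`
means that the input bit or gate `z` (of a lower layer) has the value `b`, so NOT and OR gates are
included. A step gate computes a sum with arbitrary real weights of the values of gates (an inner
step gate: of gates of lower layers), plus an arbitrary real function of the list `A` alone, plus an
arbitrary real function of the list `B` alone, and applies a function to this sum. The answer is an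
arbitrary Boolean function of the values of the `H` top step gates. -/
structure Circuit (n d T s h H : ℕ) where
  /-- the layer of a gate -/
  layer : Fin s ⊕ Fin h → Fin T
  /-- the literals of an AND gate -/
  lits : Fin s → Finset (((Pos n × Fin d) ⊕ (Fin s ⊕ Fin h)) × Bool)
  /-- an AND gate reads only input bits and gates of lower layers -/
  lower : ∀ g, ∀ q ∈ lits g, ∀ z, q.1 = Sum.inr z → layer z < layer (Sum.inl g)
  /-- the weight of a gate in the sum of an inner step gate -/
  weight : Fin h → Fin s ⊕ Fin h → ℝ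
  /-- an inner step gate reads only gates of lower layers -/
  weight_lower : ∀ r z, weight r z ≠ 0 → layer z < layer (Sum.inr r)
  /-- the summand of an inner step gate which depends on one list only -/
  free : Fin h → Bool → (Fin n → Vec d) → ℝ
  /-- the function which an inner step gate applies to its sum -/
  step : Fin h → ℝ → Bool
  /-- the weight of a gate in the sum of a top step gate -/
  topWeight : Fin H → Fin s ⊕ Fin h → ℝ
  /-- the summand of a top step gate which depends on one list only -/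
  topFree : Fin H → Bool → (Fin n → Vec d) → ℝ
  /-- the function which a top step gate applies to its sum -/
  topStep : Fin H → ℝ → ℕ
  /-- the answer, given the values of the top step gates -/
  answer : (Fin H → ℕ) → Bool

variable {n d T s h H : ℕ}

/-- The functions of all step gates are step functions with at most `J` jumps. -/
def Circuit.Steps (C : Circuit n d T s h H) (J : ℕ) : Prop :=
  (∀ r, IsStep J (C.step r)) ∧ ∀ r, IsStep J (C.topStep r)

/-- The values of the gates after `t` layers have been evaluated. -/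
noncomputable def Circuit.valueAt (C : Circuit n d T s h H) (x : Input n d) :
    ℕ → Fin s ⊕ Fin h → Bool
  | 0, _ => false
  | t + 1, Sum.inl g => decide (∀ q ∈ C.lits g,
      Sum.elim (fun z : Pos n × Fin d => x z.1 z.2) (C.valueAt x t) q.1 = q.2)
  | t + 1, Sum.inr r => C.step r ((∑ z, C.weight r z * (if C.valueAt x t z = true then 1 else 0)) +
      C.free r false (list x false) + C.free r true (list x true))

/-- The value of a gate (see the theorems `value_and` and `value_step`). -/
noncomputable def Circuit.value (C : Circuit n d T s h H) (x : Input n d) (z : Fin s ⊕ Fin h) :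
    Bool :=
  C.valueAt x ((C.layer z : ℕ) + 1) z

/-- The sum of a top step gate. -/
noncomputable def Circuit.sum (C : Circuit n d T s h H) (x : Input n d) (r : Fin H) : ℝ :=
  (∑ z, C.topWeight r z * (if C.value x z = true then 1 else 0)) +
    C.topFree r false (list x false) + C.topFree r true (list x true)

/-- The circuit accepts the input `x`. -/
def Circuit.Accepts (C : Circuit n d T s h H) (x : Input n d) : Prop :=
  C.answer (fun r => C.topStep r (C.sum x r)) = true

/-- The circuit answers the Orthogonal Vectors question correctly on the input `x`. -/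
def Circuit.CorrectOn (C : Circuit n d T s h H) (x : Input n d) : Prop :=
  C.Accepts x ↔ HasOrthogonalPair x

/-- The values of the AND gates after `t` layers, if the inner step gates are replaced by the
constants `γ`. -/
def Circuit.fixedAt (C : Circuit n d T s h H) (γ : Fin h → Bool) (x : Input n d) :
    ℕ → Fin s → Bool
  | 0, _ => false
  | t + 1, g => decide (∀ q ∈ C.lits g,
      Sum.elim (fun z : Pos n × Fin d => x z.1 z.2) (Sum.elim (C.fixedAt γ x t) γ) q.1 = q.2)

/-- The value of an AND gate, if the inner step gates are replaced by the constants `γ`. -/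
def Circuit.fixed (C : Circuit n d T s h H) (γ : Fin h → Bool) (x : Input n d) (g : Fin s) :
    Bool :=
  C.fixedAt γ x ((C.layer (Sum.inl g) : ℕ) + 1) g

/-- If the inner step gates are replaced by constants, the AND gate depends only on one of the two
lists. -/
def Circuit.OneSided (C : Circuit n d T s h H) (g : Fin s) : Prop :=
  ∀ γ : Fin h → Bool, ∃ b : Bool, ∀ x x' : Input n d, list x b = list x' b →
    C.fixed γ x g = C.fixed γ x' g

open Classical in
/-- The number of AND gates which depend on both lists when the inner step gates are replaced by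
suitable constants. -/
noncomputable def Circuit.twoSided (C : Circuit n d T s h H) : ℕ :=
  (Finset.univ.filter fun g : Fin s => ¬ C.OneSided g).card

/-! ### Values -/

theorem valueAt_eq (C : Circuit n d T s h H) (x : Input n d) (t : ℕ) (z : Fin s ⊕ Fin h)
    (ht : (C.layer z : ℕ) < t) : C.valueAt x t z = C.value x z := by
  have main : ∀ m : ℕ, ∀ z : Fin s ⊕ Fin h, (C.layer z : ℕ) = m → ∀ t, m < t →
      C.valueAt x t z = C.value x z := by
    intro m
    induction m using Nat.strong_induction_on with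
    | _ m ih =>
      intro z hz t ht
      obtain ⟨t', rfl⟩ : ∃ t', t = t' + 1 := ⟨t - 1, by omega⟩
      unfold Circuit.value
      rw [hz]
      rcases z with g | r
      · show decide (∀ q ∈ C.lits g, Sum.elim _ (C.valueAt x t') q.1 = q.2) =
          decide (∀ q ∈ C.lits g, Sum.elim _ (C.valueAt x m) q.1 = q.2)
        congr 1
        apply propext
        refine forall₂_congr fun q hq => ?_
        obtain ⟨w, b⟩ := q
        rcases w with w | w
        · exact Iff.rfl
        · have h1 : (C.layer w : ℕ) < m := by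
            have := C.lower g _ hq w rfl
            rw [Fin.lt_def, hz] at this
            exact this
          show C.valueAt x t' w = b ↔ C.valueAt x m w = b
          rw [ih _ h1 w rfl t' (by omega), ih _ h1 w rfl m h1]
      · show C.step r ((∑ z, C.weight r z * (if C.valueAt x t' z = true then 1 else 0)) +
            C.free r false (list x false) + C.free r true (list x true)) =
          C.step r ((∑ z, C.weight r z * (if C.valueAt x m z = true then 1 else 0)) +
            C.free r false (list x false) + C.free r true (list x true))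
        have h0 : (∑ z, C.weight r z * (if C.valueAt x t' z = true then (1 : ℝ) else 0)) =
            ∑ z, C.weight r z * (if C.valueAt x m z = true then (1 : ℝ) else 0) := by
          refine Finset.sum_congr rfl fun w _ => ?_
          by_cases hw : C.weight r w = 0
          · rw [hw, zero_mul, zero_mul]
          · have h1 : (C.layer w : ℕ) < m := by
              have := C.weight_lower r w hw
              rw [Fin.lt_def, hz] at this
              exact this
            rw [ih _ h1 w rfl t' (by omega), ih _ h1 w rfl m h1]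
        rw [h0]
  exact main _ z rfl t ht

/-- An AND gate is true if and only if all its literals are true. -/
theorem value_and (C : Circuit n d T s h H) (x : Input n d) (g : Fin s) :
    C.value x (Sum.inl g) = true ↔ ∀ q ∈ C.lits g,
      Sum.elim (fun z : Pos n × Fin d => x z.1 z.2) (C.value x) q.1 = q.2 := by
  show decide (∀ q ∈ C.lits g, Sum.elim _ (C.valueAt x (C.layer (Sum.inl g))) q.1 = q.2) = true ↔ _
  rw [decide_eq_true_iff]
  refine forall₂_congr fun q hq => ?_
  obtain ⟨z, b⟩ := q
  rcases z with z | w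
  · exact Iff.rfl
  · show C.valueAt x (C.layer (Sum.inl g)) w = b ↔ C.value x w = b
    rw [valueAt_eq C x _ w (C.lower g _ hq w rfl)]

/-- The value of an inner step gate. -/
theorem value_step (C : Circuit n d T s h H) (x : Input n d) (r : Fin h) :
    C.value x (Sum.inr r) =
      C.step r ((∑ z, C.weight r z * (if C.value x z = true then 1 else 0)) +
        C.free r false (list x false) + C.free r true (list x true)) := by
  show C.step r ((∑ z, C.weight r z * (if C.valueAt x (C.layer (Sum.inr r)) z = true then 1 else 0)) +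
      C.free r false (list x false) + C.free r true (list x true)) = _
  have h0 : (∑ z, C.weight r z * (if C.valueAt x (C.layer (Sum.inr r)) z = true then (1 : ℝ) else 0)) =
      ∑ z, C.weight r z * (if C.value x z = true then (1 : ℝ) else 0) := by
    refine Finset.sum_congr rfl fun w _ => ?_
    by_cases hw : C.weight r w = 0
    · rw [hw, zero_mul, zero_mul]
    · rw [valueAt_eq C x _ w (C.weight_lower r w hw)]
  rw [h0]

theorem fixedAt_eq (C : Circuit n d T s h H) (γ : Fin h → Bool) (x : Input n d) (t : ℕ)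
    (g : Fin s) (ht : (C.layer (Sum.inl g) : ℕ) < t) : C.fixedAt γ x t g = C.fixed γ x g := by
  have main : ∀ m : ℕ, ∀ g : Fin s, (C.layer (Sum.inl g) : ℕ) = m → ∀ t, m < t →
      C.fixedAt γ x t g = C.fixed γ x g := by
    intro m
    induction m using Nat.strong_induction_on with
    | _ m ih =>
      intro g hg t ht
      obtain ⟨t', rfl⟩ : ∃ t', t = t' + 1 := ⟨t - 1, by omega⟩
      unfold Circuit.fixed
      rw [hg]
      show decide (∀ q ∈ C.lits g, Sum.elim _ (Sum.elim (C.fixedAt γ x t') γ) q.1 = q.2) =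
        decide (∀ q ∈ C.lits g, Sum.elim _ (Sum.elim (C.fixedAt γ x m) γ) q.1 = q.2)
      congr 1
      apply propext
      refine forall₂_congr fun q hq => ?_
      obtain ⟨w, b⟩ := q
      rcases w with w | w | w
      · exact Iff.rfl
      · have h1 : (C.layer (Sum.inl w) : ℕ) < m := by
          have := C.lower g _ hq (Sum.inl w) rfl
          rw [Fin.lt_def, hg] at this
          exact this
        show C.fixedAt γ x t' w = b ↔ C.fixedAt γ x m w = b
        rw [ih _ h1 w rfl t' (by omega), ih _ h1 w rfl m h1]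
      · exact Iff.rfl
  exact main _ g rfl t ht

/-- An AND gate with fixed step gates is true if and only if all its literals are true. -/
theorem fixed_iff (C : Circuit n d T s h H) (γ : Fin h → Bool) (x : Input n d) (g : Fin s) :
    C.fixed γ x g = true ↔ ∀ q ∈ C.lits g,
      Sum.elim (fun z : Pos n × Fin d => x z.1 z.2) (Sum.elim (C.fixed γ x) γ) q.1 = q.2 := by
  show decide (∀ q ∈ C.lits g,
    Sum.elim _ (Sum.elim (C.fixedAt γ x (C.layer (Sum.inl g))) γ) q.1 = q.2) = true ↔ _
  rw [decide_eq_true_iff]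
  refine forall₂_congr fun q hq => ?_
  obtain ⟨z, b⟩ := q
  rcases z with z | w | w
  · exact Iff.rfl
  · show C.fixedAt γ x (C.layer (Sum.inl g)) w = b ↔ C.fixed γ x w = b
    rw [fixedAt_eq C γ x _ w (C.lower g _ hq (Sum.inl w) rfl)]
  · exact Iff.rfl

theorem fixed_congr (C : Circuit n d T s h H) (γ γ' : Fin h → Bool) (x : Input n d) (g : Fin s)
    (hγ : ∀ r, C.layer (Sum.inr r) < C.layer (Sum.inl g) → γ r = γ' r) :
    C.fixed γ x g = C.fixed γ' x g := by
  have main : ∀ m : ℕ, ∀ g : Fin s, (C.layer (Sum.inl g) : ℕ) = m →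
      (∀ r, C.layer (Sum.inr r) < C.layer (Sum.inl g) → γ r = γ' r) →
      C.fixed γ x g = C.fixed γ' x g := by
    intro m
    induction m using Nat.strong_induction_on with
    | _ m ih =>
      intro g hg hγ
      apply Bool.eq_iff_iff.2
      rw [fixed_iff, fixed_iff]
      refine forall₂_congr fun q hq => ?_
      obtain ⟨w, b⟩ := q
      rcases w with w | w | w
      · exact Iff.rfl
      · have h1 := C.lower g _ hq (Sum.inl w) rfl
        have h2 : (C.layer (Sum.inl w) : ℕ) < m := by
          rw [← hg]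
          exact h1
        show C.fixed γ x w = b ↔ C.fixed γ' x w = b
        rw [ih _ h2 w rfl (fun r hr => hγ r (hr.trans h1))]
      · show γ w = b ↔ γ' w = b
        rw [hγ w (C.lower g _ hq (Sum.inr w) rfl)]
  exact main _ g rfl hγ

/-- With the true values of the step gates one gets the true values. -/
theorem fixed_value (C : Circuit n d T s h H) (x : Input n d) (g : Fin s) :
    C.fixed (fun r => C.value x (Sum.inr r)) x g = C.value x (Sum.inl g) := by
  have main : ∀ m : ℕ, ∀ g : Fin s, (C.layer (Sum.inl g) : ℕ) = m →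
      C.fixed (fun r => C.value x (Sum.inr r)) x g = C.value x (Sum.inl g) := by
    intro m
    induction m using Nat.strong_induction_on with
    | _ m ih =>
      intro g hg
      apply Bool.eq_iff_iff.2
      rw [fixed_iff, value_and]
      refine forall₂_congr fun q hq => ?_
      obtain ⟨w, b⟩ := q
      rcases w with w | w | w
      · exact Iff.rfl
      · have h1 := C.lower g _ hq (Sum.inl w) rfl
        have h2 : (C.layer (Sum.inl w) : ℕ) < m := by
          rw [← hg]
          exact h1
        show C.fixed (fun r => C.value x (Sum.inr r)) x w = b ↔ C.value x (Sum.inl w) = b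
        rw [ih _ h2 w rfl]
      · exact Iff.rfl
  exact main _ g rfl

/-! ### The upper bounds -/

section upper

private noncomputable def stp (y : ℝ) : ℕ := if y < 1 / 2 then 0 else 1

private theorem stp_isStep : IsStep 1 stp := by
  refine ⟨{1 / 2}, by simp, ?_⟩
  intro a b hab h
  have h1 := h (1 / 2) (by simp)
  unfold stp
  rcases h1 with h1 | h1
  · rw [if_neg (by linarith), if_neg (by linarith)]
  · rw [if_pos (by linarith), if_pos (by linarith)]

private theorem orth_iff {n d : ℕ} (x : Input n d) (i j : Fin n) :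
    (∑ k : Fin d, (x (false, i) k).toNat * (x (true, j) k).toNat = 0) ↔
      ∀ k, ¬ (x (false, i) k = true ∧ x (true, j) k = true) := by
  rw [Finset.sum_eq_zero_iff]
  constructor
  · rintro h k ⟨h1, h2⟩
    have h3 := h k (Finset.mem_univ k)
    rw [h1, h2] at h3
    simp at h3
  · intro h k _
    have h3 := h k
    cases h1 : x (false, i) k <;> cases h2 : x (true, j) k <;> simp_all

theorem upper_pairs (n d : ℕ) : ∃ A : Circuit n d 2 (n * n * d + n * n) 0 1,
    A.Steps 1 ∧ ∀ x, A.CorrectOn x := by
  classical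
  obtain ⟨e⟩ : Nonempty (Fin (n * n * d + n * n) ≃
      (((Fin n × Fin n) × Fin d) ⊕ (Fin n × Fin n))) := by
    refine ⟨(Fintype.equivFinOfCardEq ?_).symm⟩
    simp [Fintype.card_sum, Fintype.card_prod]
  let lay : (((Fin n × Fin n) × Fin d) ⊕ (Fin n × Fin n)) → Fin 2 :=
    Sum.elim (fun _ => 0) (fun _ => 1)
  let lt : (((Fin n × Fin n) × Fin d) ⊕ (Fin n × Fin n)) →
      Finset (((Pos n × Fin d) ⊕ (Fin (n * n * d + n * n) ⊕ Fin 0)) × Bool) :=
    Sum.elim (fun p => {(Sum.inl ((false, p.1.1), p.2), true), (Sum.inl ((true, p.1.2), p.2), true)})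
      (fun p => Finset.univ.image fun c : Fin d => (Sum.inr (Sum.inl (e.symm (Sum.inl (p, c)))), false))
  let A : Circuit n d 2 (n * n * d + n * n) 0 1 :=
    { layer := Sum.elim (fun g => lay (e g)) (fun r => r.elim0)
      lits := fun g => lt (e g)
      lower := by
        intro g q hq h hqh
        show _ < lay (e g)
        obtain ⟨y, hy⟩ : ∃ y, y = e g := ⟨_, rfl⟩
        rw [← hy] at hq ⊢
        rcases y with p | p
        · have hq' : q ∈ ({(Sum.inl ((false, p.1.1), p.2), true),
              (Sum.inl ((true, p.1.2), p.2), true)} :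
                Finset (((Pos n × Fin d) ⊕ (Fin (n * n * d + n * n) ⊕ Fin 0)) × Bool)) := hq
          rw [Finset.mem_insert, Finset.mem_singleton] at hq'
          rcases hq' with rfl | rfl
          · exact absurd hqh (by simp)
          · exact absurd hqh (by simp)
        · have hq' : q ∈ Finset.univ.image (fun c : Fin d =>
              ((Sum.inr (Sum.inl (e.symm (Sum.inl (p, c)))) :
                (Pos n × Fin d) ⊕ (Fin (n * n * d + n * n) ⊕ Fin 0)), false)) := hq
          rw [Finset.mem_image] at hq'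
          obtain ⟨c, -, rfl⟩ := hq'
          have h1 : Sum.inl (e.symm (Sum.inl (p, c))) = h := Sum.inr.inj hqh
          rw [← h1]
          show lay (e (e.symm (Sum.inl (p, c)))) < lay (Sum.inr p)
          rw [Equiv.apply_symm_apply]
          exact Nat.zero_lt_one
      weight := fun r _ => r.elim0
      weight_lower := fun r => r.elim0
      free := fun r _ _ => r.elim0
      step := fun r _ => r.elim0
      topWeight := fun _ z => Sum.elim (fun g => Sum.elim (fun _ => (0 : ℝ)) (fun _ => 1) (e g)) (fun _ => 0) z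
      topFree := fun _ _ _ => 0
      topStep := fun _ => stp
      answer := fun v => decide (v 0 = 1) }
  refine ⟨A, ⟨fun r => r.elim0, fun r => stp_isStep⟩, fun x => ?_⟩
  have v1 : ∀ (p : Fin n × Fin n) (c : Fin d), A.value x (Sum.inl (e.symm (Sum.inl (p, c)))) = true ↔
      (x (false, p.1) c = true ∧ x (true, p.2) c = true) := by
    intro p c
    rw [value_and]
    have h1 : A.lits (e.symm (Sum.inl (p, c))) =
        {(Sum.inl ((false, p.1), c), true), (Sum.inl ((true, p.2), c), true)} := by
      show lt (e (e.symm (Sum.inl (p, c)))) = _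
      rw [Equiv.apply_symm_apply]
      rfl
    rw [h1]
    constructor
    · intro h
      exact ⟨h (Sum.inl ((false, p.1), c), true) (by simp),
        h (Sum.inl ((true, p.2), c), true) (by simp)⟩
    · rintro ⟨h2, h3⟩ q hq
      rw [Finset.mem_insert, Finset.mem_singleton] at hq
      rcases hq with rfl | rfl
      · exact h2
      · exact h3
  have v2 : ∀ p : Fin n × Fin n, A.value x (Sum.inl (e.symm (Sum.inr p))) = true ↔
      ∑ k : Fin d, (x (false, p.1) k).toNat * (x (true, p.2) k).toNat = 0 := by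
    intro p
    rw [value_and, orth_iff]
    have h1 : A.lits (e.symm (Sum.inr p)) =
        Finset.univ.image fun c : Fin d => (Sum.inr (Sum.inl (e.symm (Sum.inl (p, c)))), false) := by
      show lt (e (e.symm (Sum.inr p))) = _
      rw [Equiv.apply_symm_apply]
      rfl
    rw [h1]
    constructor
    · intro h c hc
      have h2 := h (Sum.inr (Sum.inl (e.symm (Sum.inl (p, c)))), false)
        (Finset.mem_image.2 ⟨c, Finset.mem_univ c, rfl⟩)
      have h3 : A.value x (Sum.inl (e.symm (Sum.inl (p, c)))) = false := h2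
      rw [(v1 p c).2 hc] at h3
      exact Bool.noConfusion h3
    · intro h q hq
      rw [Finset.mem_image] at hq
      obtain ⟨c, -, rfl⟩ := hq
      show A.value x (Sum.inl (e.symm (Sum.inl (p, c)))) = false
      rw [← Bool.not_eq_true]
      intro h2
      exact h c ((v1 p c).1 h2)
  have hsum : A.sum x 0 = ∑ p : Fin n × Fin n,
      (if A.value x (Sum.inl (e.symm (Sum.inr p))) = true then (1 : ℝ) else 0) := by
    show (∑ z : Fin (n * n * d + n * n) ⊕ Fin 0,
      Sum.elim (fun g => Sum.elim (fun _ => (0 : ℝ)) (fun _ => 1) (e g)) (fun _ => 0) z *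
      (if A.value x z = true then (1 : ℝ) else 0)) + 0 + 0 = _
    rw [add_zero, add_zero, Fintype.sum_sum_type]
    rw [Finset.univ_eq_empty (α := Fin 0), Finset.sum_empty, add_zero]
    simp only [Sum.elim_inl]
    rw [← Equiv.sum_comp e.symm, Fintype.sum_sum_type]
    rw [Finset.sum_eq_zero, zero_add]
    · refine Finset.sum_congr rfl fun p _ => ?_
      rw [Equiv.apply_symm_apply]
      simp only [Sum.elim_inr, one_mul]
    · intro p _
      rw [Equiv.apply_symm_apply]
      simp only [Sum.elim_inl, zero_mul]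
  show (decide (stp (A.sum x 0) = 1) = true) ↔ _
  rw [decide_eq_true_iff, hsum]
  constructor
  · intro h
    by_contra hno
    have h0 : ∑ p : Fin n × Fin n,
        (if A.value x (Sum.inl (e.symm (Sum.inr p))) = true then (1 : ℝ) else 0) = 0 := by
      refine Finset.sum_eq_zero fun p _ => ?_
      rw [if_neg]
      intro h1
      exact hno ⟨p.1, p.2, (v2 p).1 h1⟩
    rw [h0] at h
    unfold stp at h
    rw [if_pos (by norm_num)] at h
    exact Nat.zero_ne_one h
  · rintro ⟨i, j, hij⟩
    have h1 := (v2 (i, j)).2 hij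
    have h2 : (1 : ℝ) ≤ ∑ p : Fin n × Fin n,
        (if A.value x (Sum.inl (e.symm (Sum.inr p))) = true then (1 : ℝ) else 0) := by
      refine le_trans ?_ (Finset.single_le_sum (f := fun p : Fin n × Fin n =>
        (if A.value x (Sum.inl (e.symm (Sum.inr p))) = true then (1 : ℝ) else 0)) (fun p _ => ?_)
        (Finset.mem_univ (i, j)))
      · rw [if_pos h1]
      · split_ifs <;> norm_num
    unfold stp
    rw [if_neg (by linarith)]

theorem upper_read (n d : ℕ) : ∃ A : Circuit n d 0 0 0 (2 * n * d),
    A.Steps 1 ∧ ∀ x, A.CorrectOn x := by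
  classical
  obtain ⟨e⟩ : Nonempty (Fin (2 * n * d) ≃ Pos n × Fin d) := by
    refine ⟨(Fintype.equivFinOfCardEq ?_).symm⟩
    simp [Fintype.card_prod]
  let A : Circuit n d 0 0 0 (2 * n * d) :=
    { layer := fun z => Sum.elim (fun g : Fin 0 => g.elim0) (fun r : Fin 0 => r.elim0) z
      lits := fun g => g.elim0
      lower := fun g => g.elim0
      weight := fun r _ => r.elim0
      weight_lower := fun r => r.elim0
      free := fun r _ _ => r.elim0
      step := fun r _ => r.elim0
      topWeight := fun _ _ => 0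
      topFree := fun r b v => if b = (e r).1.1 ∧ v (e r).1.2 (e r).2 = true then 1 else 0
      topStep := fun _ => stp
      answer := fun v => decide (HasOrthogonalPair (n := n) (d := d)
        (fun p c => decide (v (e.symm (p, c)) = 1))) }
  refine ⟨A, ⟨fun r => r.elim0, fun r => stp_isStep⟩, fun x => ?_⟩
  have hs : ∀ r, stp (A.sum x r) = 1 ↔ x (e r).1 (e r).2 = true := by
    intro r
    have h1 : A.sum x r = if x (e r).1 (e r).2 = true then 1 else 0 := by
      show (∑ z : Fin 0 ⊕ Fin 0, (0 : ℝ) * (if A.value x z = true then (1 : ℝ) else 0)) +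
        (if false = (e r).1.1 ∧ list x false (e r).1.2 (e r).2 = true then (1 : ℝ) else 0) +
        (if true = (e r).1.1 ∧ list x true (e r).1.2 (e r).2 = true then (1 : ℝ) else 0) = _
      have h0 : (∑ z : Fin 0 ⊕ Fin 0, (0 : ℝ) * (if A.value x z = true then (1 : ℝ) else 0)) = 0 :=
        Finset.sum_eq_zero fun z _ => zero_mul _
      rw [h0, zero_add]
      obtain ⟨⟨⟨b, i⟩, c⟩, hy⟩ : ∃ y, y = e r := ⟨_, rfl⟩
      rw [← hy]
      unfold list
      cases b <;> simp
    rw [h1]
    unfold stp
    by_cases h2 : x (e r).1 (e r).2 = true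
    · rw [if_pos h2, if_neg (by norm_num)]
      exact ⟨fun _ => h2, fun _ => rfl⟩
    · rw [if_neg h2, if_pos (by norm_num)]
      exact ⟨fun h => absurd h (by norm_num), fun h => absurd h h2⟩
  show (decide (HasOrthogonalPair (n := n) (d := d)
    (fun p c => decide (stp (A.sum x (e.symm (p, c))) = 1))) = true) ↔ _
  rw [decide_eq_true_iff]
  have hx : (fun p c => decide (stp (A.sum x (e.symm (p, c))) = 1)) = x := by
    funext p c
    have h1 := hs (e.symm (p, c))
    rw [Equiv.apply_symm_apply] at h1
    rw [Bool.eq_iff_iff, decide_eq_true_iff]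
    exact h1
  rw [hx]

end upper

/-! ### The lower bound -/

section lower

open Pool.Agent.H58 Pool.Agent.H58.OVAC Pool.Agent.H58.OVPR Pool.Agent.H58.CD Pool.Agent.H58.CE

private def famLit (q : ((Pos n × Fin d) ⊕ (Fin s ⊕ Fin h)) × Bool) :
    (((OVAC.Pos n × Fin d) ⊕ Fin h) ⊕ Fin s) × Bool :=
  (Sum.elim (fun z => Sum.inl (Sum.inl z))
    (Sum.elim (fun g => Sum.inr g) fun r => Sum.inl (Sum.inr r)) q.1, q.2)

open Classical in
private noncomputable def famNet (A : Circuit n d T s h H) (γ : Fin h → Bool) :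
    Net ((OVAC.Pos n × Fin d) ⊕ Fin h) (OVAC.Input n d) s T where
  inp i x := Sum.elim (fun q => x q.1 q.2) γ i
  lits g := (A.lits g).image famLit
  layer g := A.layer (Sum.inl g)
  lower := by
    intro g q hq g' hqg
    obtain ⟨⟨z, b⟩, hq', rfl⟩ := Finset.mem_image.1 hq
    rcases z with z | z | z
    · simp [famLit] at hqg
    · have e : z = g' := by simpa [famLit] using hqg
      subst e
      exact A.lower g _ hq' (Sum.inl z) rfl
    · simp [famLit] at hqg
  val g x := A.fixed γ x g
  val_iff := by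
    intro g x
    rw [fixed_iff, Finset.forall_mem_image]
    refine forall_congr' fun q => forall_congr' fun _ => ?_
    obtain ⟨z, b⟩ := q
    rcases z with z | z | z <;> rfl

/-- the sum of a step gate at a coded input, the step gates replaced by constants -/
private noncomputable def gsum {D k l : ℕ} (A : Circuit n d T s h H) (code : Fin n → Fin l → Bool)
    (w : Fin s ⊕ Fin h → ℝ) (F : Bool → (Fin n → Vec d) → ℝ) (γ : Fin h → Bool)
    (y : Co n D → Fin k) : ℝ :=
  (∑ z, w z * (if Sum.elim (A.fixed γ (code₁ code y)) γ z = true then (1 : ℝ) else 0)) +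
    F false (list (code₁ code y) false) + F true (list (code₁ code y) true)

private theorem fam_code {D k l : ℕ} (code : Fin n → Fin l → Bool) (b : Bool)
    (y y' : Co n D → Fin k) (hy : ∀ p, p.1.1 = b → y p = y' p) :
    list (code₁ (d := d) code y) b = list (code₁ code y') b := by
  funext i
  show code₁ code y (b, i) = code₁ code y' (b, i)
  unfold code₁
  congr 1
  funext c
  exact hy _ rfl

private theorem fam_true {D k l : ℕ} (A : Circuit n d T s h H) (code : Fin n → Fin l → Bool)
    (w : Fin s ⊕ Fin h → ℝ) (F : Bool → (Fin n → Vec d) → ℝ) (y : Co n D → Fin k) :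
    gsum A code w F (fun r => A.value (code₁ code y) (Sum.inr r)) y =
      (∑ z, w z * (if A.value (code₁ code y) z = true then (1 : ℝ) else 0)) +
        F false (list (code₁ code y) false) + F true (list (code₁ code y) true) := by
  unfold gsum
  congr 2
  refine Finset.sum_congr rfl fun z _ => ?_
  rcases z with z | z
  · rw [Sum.elim_inl, fixed_value]
  · rw [Sum.elim_inr]

private theorem fam_add {D k l : ℕ} (A : Circuit n d T s h H) (code : Fin n → Fin l → Bool)
    (w : Fin s ⊕ Fin h → ℝ) (F : Bool → (Fin n → Vec d) → ℝ) (γ : Fin h → Bool)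
    (N : Net (Option (Co n D × Fin k)) (Co n D → Fin k) s T)
    (hN : ∀ g y, N.val g y = A.fixed γ (code₁ code y) g)
    (B₀ B₁ : Finset (Co n D)) (y y' : Co n D → Fin k) (h₀ : ∀ p ∈ B₀, p.1.1 = false)
    (h₁ : ∀ p ∈ B₁, p.1.1 = true) (hbad : ¬ BadS N B₀ B₁ y y') :
    gsum A code w F γ (mix (B₀ ∪ B₁) y' y) = gsum A code w F γ (mix B₀ y' y) +
      (gsum A code w F γ (mix B₁ y' y) - gsum A code w F γ y) := by
  have hU : ∀ g, Uni (N.val g) y (mix B₀ y' y) (mix B₁ y' y) (mix (B₀ ∪ B₁) y' y) := by
    intro g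
    by_contra hg
    exact hbad ⟨g, hg⟩
  have n1 : ∀ p : Co n D, p.1.1 = false → p ∉ B₁ := fun p hp h2 => by
    have := h₁ p h2
    rw [hp] at this
    exact absurd this (by decide)
  have n0 : ∀ p : Co n D, p.1.1 = true → p ∉ B₀ := fun p hp h2 => by
    have := h₀ p h2
    rw [hp] at this
    exact absurd this (by decide)
  have e1 : list (code₁ (d := d) code (mix (B₀ ∪ B₁) y' y)) false =
      list (code₁ code (mix B₀ y' y)) false := fam_code code _ _ _ fun p hp => by
    unfold mix
    simp only [Finset.mem_union, n1 p hp, or_false]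
  have e2 : list (code₁ (d := d) code (mix B₁ y' y)) false = list (code₁ code y) false :=
    fam_code code _ _ _ fun p hp => by
      unfold mix
      rw [if_neg (n1 p hp)]
  have e3 : list (code₁ (d := d) code (mix (B₀ ∪ B₁) y' y)) true =
      list (code₁ code (mix B₁ y' y)) true := fam_code code _ _ _ fun p hp => by
    unfold mix
    simp only [Finset.mem_union, n0 p hp, false_or]
  have e4 : list (code₁ (d := d) code (mix B₀ y' y)) true = list (code₁ code y) true :=
    fam_code code _ _ _ fun p hp => by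
      unfold mix
      rw [if_neg (n0 p hp)]
  obtain ⟨E, hE⟩ : ∃ E : (Co n D → Fin k) → Fin s ⊕ Fin h → ℝ, ∀ x z, E x z =
      w z * (if Sum.elim (A.fixed γ (code₁ code x)) γ z = true then (1 : ℝ) else 0) :=
    ⟨_, fun _ _ => rfl⟩
  have hs : (∑ z, E (mix (B₀ ∪ B₁) y' y) z) = (∑ z, E (mix B₀ y' y) z) +
      ((∑ z, E (mix B₁ y' y) z) - ∑ z, E y z) := by
    rw [← Finset.sum_sub_distrib, ← Finset.sum_add_distrib]
    refine Finset.sum_congr rfl fun z _ => ?_
    rw [hE, hE, hE, hE]
    rcases z with g | r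
    · rw [Sum.elim_inl, Sum.elim_inl, Sum.elim_inl, Sum.elim_inl, ← hN, ← hN, ← hN, ← hN]
      rcases hU g with ⟨h1, h2⟩ | ⟨h1, h2⟩
      · rw [h1, h2]
        ring
      · rw [h1, h2]
        ring
    · rw [Sum.elim_inr, Sum.elim_inr, Sum.elim_inr, Sum.elim_inr]
      ring
  have hg : ∀ x : Co n D → Fin k, gsum A code w F γ x = (∑ z, E x z) +
      F false (list (code₁ code x) false) + F true (list (code₁ code x) true) := by
    intro x
    unfold gsum
    congr 2
    exact Finset.sum_congr rfl fun z _ => (hE x z).symm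
  rw [hg, hg, hg, hg, hs, e1, e2, e3, e4]
  ring

theorem exists_sfam {D k l J : ℕ} (A : Circuit n d T s h H) (hA : A.Steps J)
    (code : Fin n → Fin l → Bool) :
    ∃ S : SFam (Option (Co n D × Fin k)) n D k s T h H J,
      (∀ y, S.acc y ↔ A.Accepts (code₁ code y)) ∧
      ∃ two : Finset (Fin s), S.Two two ∧ two.card = A.twoSided := by
  classical
  have h0 := fun γ : Fin h → Bool =>
    embed_net2 (k := k) (D := D) code γ (famNet A γ) (fun q x => rfl) (fun r x => rfl)
  choose N hN1 hN2 using h0
  have hval : ∀ γ g y, (N γ).val g y = A.fixed γ (code₁ code y) g := hN2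
  refine ⟨⟨N, hN1, fun r => (A.layer (Sum.inr r) : ℕ), fun r => (A.layer (Sum.inr r)).2,
    fun γ r y => gsum A code (A.weight r) (A.free r) γ y, A.step, fun r => hA.1 r,
    fun γ r y => gsum A code (A.topWeight r) (A.topFree r) γ y, A.topStep, fun r => hA.2 r,
    fun y r => A.value (code₁ code y) (Sum.inr r), ?_, ?_, ?_, ?_, A.answer⟩, ?_, ?_⟩
  · intro y r
    show A.value (code₁ code y) (Sum.inr r) = A.step r (gsum A code (A.weight r) (A.free r)
      (fun r => A.value (code₁ code y) (Sum.inr r)) y)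
    rw [fam_true, value_step]
  · intro γ γ' r hγ
    funext y
    show gsum A code (A.weight r) (A.free r) γ y = gsum A code (A.weight r) (A.free r) γ' y
    unfold gsum
    congr 2
    refine Finset.sum_congr rfl fun z _ => ?_
    by_cases hz : A.weight r z = 0
    · rw [hz, zero_mul, zero_mul]
    · have h1 := A.weight_lower r z hz
      rcases z with g | r'
      · rw [Sum.elim_inl, Sum.elim_inl, fixed_congr A γ γ' _ g fun r' hr' => hγ r' (hr'.trans h1)]
      · rw [Sum.elim_inr, Sum.elim_inr, hγ r' h1]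
  · intro γ r B₀ B₁ y y' h₀ h₁ hbad
    exact fam_add A code _ _ γ (N γ) (hval γ) B₀ B₁ y y' h₀ h₁ hbad
  · intro γ r B₀ B₁ y y' h₀ h₁ hbad
    exact fam_add A code _ _ γ (N γ) (hval γ) B₀ B₁ y y' h₀ h₁ hbad
  · intro y
    show A.answer (fun r => A.topStep r (gsum A code (A.topWeight r) (A.topFree r)
      (fun r => A.value (code₁ code y) (Sum.inr r)) y)) = true ↔ A.Accepts (code₁ code y)
    unfold Circuit.Accepts
    have h1 : (fun r => A.topStep r (gsum A code (A.topWeight r) (A.topFree r)
        (fun r => A.value (code₁ code y) (Sum.inr r)) y)) =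
        fun r => A.topStep r (A.sum (code₁ code y) r) := by
      funext r
      rw [fam_true]
      rfl
    rw [h1]
  · refine ⟨Finset.univ.filter fun g : Fin s => ¬ A.OneSided g, ?_, ?_⟩
    · intro γ g hg
      have h1 : A.OneSided g := by
        by_contra h2
        exact hg (Finset.mem_filter.2 ⟨Finset.mem_univ _, h2⟩)
      obtain ⟨b, hb⟩ := h1 γ
      refine ⟨b, fun y y' hy => ?_⟩
      show (N γ).val g y = (N γ).val g y'
      rw [hval, hval]
      exact hb _ _ (fam_code code b y y' hy)
    · unfold Circuit.twoSided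
      congr

theorem det_bound {J L l : ℕ} (hH : 1 ≤ H) (hL : 1 ≤ L) (hl : l ≤ L)
    (hnL : n ≤ 2 ^ L) (hs : s + 1 ≤ 2 ^ L)
    (hT : (32 * qS₁ (h + L)) ^ (T + 1) ≤ 2 ^ (64 * (h + L)))
    (hn' : 400 * (T + 2) * (snB T (qS₁ (h + L)) + 1) ≤ n / qm T h H J)
    (code : Fin n → Fin l → Bool)
    (pos : Fin (n / qm T h H J) → Fin (qm T h H J) → Fin n)
    (hpos : ∀ a t, (pos a t : ℕ) = a * qm T h H J + t) (A : Circuit n d T s h H)
    (hA : A.Steps J) :
    (19 / 20 : ℝ) ≤
      pr (fun τ : PTest n (qK T (h + L)) (qD T (h + L) l) (n / qm T h H J) (qm T h H J) =>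
        ¬ A.Accepts (code₁ code (τ.y pos))) +
      pr (fun y : Co n (qD T (h + L) l) → Fin (qK T (h + L)) => A.Accepts (code₁ code y)) +
      10 * ((T : ℝ) + 2) * pB T (qS₁ (h + L)) / ((n / qm T h H J : ℕ) : ℝ) ^ 2 * A.twoSided := by
  obtain ⟨S, hacc, two, htwo, hcard⟩ :=
    exists_sfam (k := qK T (h + L)) (D := qD T (h + L) l) A hA code
  have h1 := det_q hH hL hl hnL hs hT hn' pos hpos S two htwo
  have e1 : pr (fun τ : PTest n (qK T (h + L)) (qD T (h + L) l) (n / qm T h H J) (qm T h H J) =>
      ¬ A.Accepts (code₁ code (τ.y pos))) =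
      pr (fun τ : PTest n (qK T (h + L)) (qD T (h + L) l) (n / qm T h H J) (qm T h H J) =>
        ¬ S.acc (τ.y pos)) := pr_congr fun τ => not_congr (hacc _).symm
  have e2 : pr (fun y : Co n (qD T (h + L) l) → Fin (qK T (h + L)) =>
      A.Accepts (code₁ code y)) = pr S.acc := pr_congr fun y => (hacc y).symm
  rw [e1, e2, ← hcard]
  exact h1

theorem lower : ∃ C : ℕ, ∀ n d T s h H J : ℕ, 2 ≤ n → 1 ≤ H →
    (C * (h + Nat.clog 2 (n * (s + 1) * (J + 1)))) ^ (C * (T + 1)) ≤ d →
    ∀ μ : PMF (Circuit n d T s h H), (∀ A ∈ μ.support, A.Steps J) →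
      (∀ x : Input n d, IsValid x → (2 / 3 : ENNReal) ≤ μ.toOuterMeasure {A | A.CorrectOn x}) →
      (n : ENNReal) ^ 2 ≤ ((∑' A, μ A * (A.twoSided : ENNReal)) + 1) * (H : ENNReal) ^ 2 *
        (((C * (h + Nat.clog 2 (n * (s + 1) * (J + 1)))) ^ (C * (T + 1)) : ℕ) : ENNReal) := by
  classical
  refine ⟨2 ^ 20, ?_⟩
  intro n d T s h H J hn hH hd μ hstep hμ
  -- the logarithm
  have hprod : 2 ≤ n * (s + 1) * (J + 1) := by
    calc 2 ≤ n := hn
      _ ≤ n * (s + 1) := Nat.le_mul_of_pos_right _ (by omega)
      _ ≤ n * (s + 1) * (J + 1) := Nat.le_mul_of_pos_right _ (by omega)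
  have hL : 1 ≤ Nat.clog 2 (n * (s + 1) * (J + 1)) := Nat.clog_pos (by norm_num) hprod
  have hpow := Nat.le_pow_clog (b := 2) (by norm_num) (n * (s + 1) * (J + 1))
  have hle : n ≤ n * (s + 1) * (J + 1) := by
    calc n ≤ n * (s + 1) := Nat.le_mul_of_pos_right _ (by omega)
      _ ≤ n * (s + 1) * (J + 1) := Nat.le_mul_of_pos_right _ (by omega)
  have hnL : n ≤ 2 ^ Nat.clog 2 (n * (s + 1) * (J + 1)) := hle.trans hpow
  have hsL : s + 1 ≤ 2 ^ Nat.clog 2 (n * (s + 1) * (J + 1)) := by
    refine le_trans ?_ hpow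
    calc s + 1 ≤ n * (s + 1) := Nat.le_mul_of_pos_left _ (by omega)
      _ ≤ n * (s + 1) * (J + 1) := Nat.le_mul_of_pos_right _ (by omega)
  have hJL : J + 1 ≤ 2 ^ Nat.clog 2 (n * (s + 1) * (J + 1)) := by
    refine le_trans ?_ hpow
    exact Nat.le_mul_of_pos_left _ (Nat.mul_pos (by omega) (by omega))
  have hlL : Nat.clog 2 n ≤ Nat.clog 2 (n * (s + 1) * (J + 1)) := Nat.clog_mono_right 2 hle
  generalize Nat.clog 2 (n * (s + 1) * (J + 1)) = L at hL hpow hnL hsL hJL hlL hd ⊢
  obtain ⟨P, hP⟩ : ∃ P : ℕ, P = (2 ^ 20 * (h + L)) ^ (2 ^ 20 * (T + 1)) := ⟨_, rfl⟩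
  rw [← hP] at hd ⊢
  have hP1 : 1 ≤ P := by
    rw [hP]
    exact Nat.one_le_pow _ _ (by omega)
  obtain ⟨E, hE⟩ : ∃ E : ENNReal, E = ∑' A, μ A * (A.twoSided : ENNReal) := ⟨_, rfl⟩
  rw [← hE]
  -- the trivial cases
  have htriv : n ^ 2 ≤ H ^ 2 * P → (n : ENNReal) ^ 2 ≤ (E + 1) * (H : ENNReal) ^ 2 * (P : ENNReal) := by
    intro hh
    have h1 : (n : ENNReal) ^ 2 ≤ (H : ENNReal) ^ 2 * (P : ENNReal) := by exact_mod_cast hh
    refine h1.trans ?_
    have h2 : (1 : ENNReal) ≤ E + 1 := le_add_self
    calc (H : ENNReal) ^ 2 * (P : ENNReal) = 1 * (H : ENNReal) ^ 2 * (P : ENNReal) := by rw [one_mul]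
      _ ≤ (E + 1) * (H : ENNReal) ^ 2 * (P : ENNReal) := by gcongr
  by_cases hT : 2 ^ (64 * (h + L)) < (32 * qS₁ (h + L)) ^ (T + 1)
  · apply htriv
    have h1 := qnum_triv (T := T) hnL hL hT
    rw [← hP] at h1
    exact h1.trans (Nat.le_mul_of_pos_left _ (by positivity))
  rw [not_lt] at hT
  by_cases hnH : n < H
  · apply htriv
    calc n ^ 2 ≤ H ^ 2 := Nat.pow_le_pow_left hnH.le 2
      _ ≤ H ^ 2 * P := Nat.le_mul_of_pos_right _ hP1
  rw [not_lt] at hnH
  obtain ⟨hfin1, hfin⟩ := qnum_fin (T := T) (h := h) (L := L) (H := H) (J := J) hL hH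
    (hnH.trans hnL) hJL
  rw [← hP] at hfin1 hfin
  have hm1 : 1 ≤ qm T h H J := by
    have h1 : 1 ≤ qL T h H J := by
      unfold qL
      omega
    unfold qm
    exact Nat.mul_pos (Nat.mul_pos (by norm_num) (by positivity)) h1
  by_cases hm : n / qm T h H J < 400 * (T + 2) * (snB T (qS₁ (h + L)) + 1)
  · apply htriv
    have h1 : n < qm T h H J * (n / qm T h H J + 1) := by
      have h2 := Nat.div_add_mod n (qm T h H J)
      have h3 := Nat.mod_lt n (show 0 < qm T h H J from hm1)
      rw [Nat.mul_add, Nat.mul_one]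
      omega
    have h2 : n ≤ qm T h H J * (400 * (T + 2) * (snB T (qS₁ (h + L)) + 1)) :=
      h1.le.trans (Nat.mul_le_mul_left _ (by omega))
    calc n ^ 2 ≤ (qm T h H J * (400 * (T + 2) * (snB T (qS₁ (h + L)) + 1))) ^ 2 :=
          Nat.pow_le_pow_left h2 2
      _ = 160000 * ((T + 2) ^ 2 * (snB T (qS₁ (h + L)) + 1) ^ 2 * qm T h H J ^ 2) := by ring
      _ ≤ 640000 * ((T + 2) ^ 2 * (snB T (qS₁ (h + L)) + 1) ^ 2 * qm T h H J ^ 2) :=
          Nat.mul_le_mul_right _ (by norm_num)
      _ = 640000 * (T + 2) ^ 2 * (snB T (qS₁ (h + L)) + 1) ^ 2 * qm T h H J ^ 2 := by ring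
      _ ≤ H ^ 2 * P := hfin1
  rw [not_lt] at hm
  -- the main case
  have hn'1 : 1 ≤ n / qm T h H J := by
    refine le_trans ?_ hm
    exact Nat.mul_pos (Nat.mul_pos (by norm_num) (by omega)) (by omega)
  obtain ⟨code, hcode⟩ := OVAC.exists_code (n := n) (m := Nat.clog 2 n)
    (Nat.le_pow_clog (by norm_num) n)
  have hl1 : 1 ≤ Nat.clog 2 n := Nat.clog_pos (by norm_num) hn
  have hnl : n ≤ 2 ^ Nat.clog 2 n := Nat.le_pow_clog (by norm_num) n
  generalize Nat.clog 2 n = l at code hcode hl1 hnl hlL
  have hdim : 2 * l + qD T (h + L) l * qK T (h + L) ≤ d := by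
    have h1 := qnum_dim (T := T) (h := h) hlL hL
    rw [← hP] at h1
    exact h1.trans hd
  have hk2 : 2 ≤ qK T (h + L) := by
    have h1 : 1 ≤ (T + 2) * (snB T (qS₁ (h + L)) + 2) := Nat.mul_pos (by omega) (by omega)
    have h2 : qK T (h + L) = 100000 * ((T + 2) * (snB T (qS₁ (h + L)) + 2)) := by
      unfold qK
      ring
    omega
  have hposlt : ∀ (a : Fin (n / qm T h H J)) (t : Fin (qm T h H J)),
      (a : ℕ) * qm T h H J + t < n := by
    intro a t
    have h1 : ((a : ℕ) + 1) * qm T h H J ≤ n / qm T h H J * qm T h H J :=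
      Nat.mul_le_mul_right _ a.2
    have h2 : n / qm T h H J * qm T h H J ≤ n := Nat.div_mul_le_self _ _
    have h3 := t.2
    have h4 : ((a : ℕ) + 1) * qm T h H J = (a : ℕ) * qm T h H J + qm T h H J := by ring
    omega
  let ps : Fin (n / qm T h H J) → Fin (qm T h H J) → Fin n :=
    fun a t => ⟨a * qm T h H J + t, hposlt a t⟩
  have hcode₁ : ∀ y : Co n (qD T (h + L) l) → Fin (qK T (h + L)), code₁ (d := d) code y =
      OVAC.tst (OVAC.emb d code) (fun i c => y ((false, i), c)) fun j c => y ((true, j), c) := by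
    intro y
    funext p
    obtain ⟨b, i⟩ := p
    cases b with
    | false => simp [code₁, OVAC.tst]
    | true => simp [code₁, OVAC.tst]
  have hval : ∀ y : Co n (qD T (h + L) l) → Fin (qK T (h + L)),
      IsValid (code₁ (d := d) code y) := by
    intro y
    rw [hcode₁ y]
    exact OVAC.emb_valid hdim code hcode _ _
  have horth : ∀ y : Co n (qD T (h + L) l) → Fin (qK T (h + L)),
      HasOrthogonalPair (code₁ (d := d) code y) ↔ ∃ i j : Fin n,
        Off (fun c => y ((false, i), c)) (fun c => y ((true, j), c)) := by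
    intro y
    rw [hcode₁ y]
    exact exists_congr fun i => exists_congr fun j => OVAC.emb_orthogonal hdim code _ _ i j
  have hneX : Nonempty (Fin (qK T (h + L))) := ⟨⟨0, by omega⟩⟩
  have hneT : Nonempty (PTest n (qK T (h + L)) (qD T (h + L) l) (n / qm T h H J)
      (qm T h H J)) := by
    refine ⟨(fun _ => ⟨0, by omega⟩, ((⟨0, by omega⟩, ⟨0, by omega⟩), (⟨0, by omega⟩,
      ⟨0, by omega⟩)), ⟨(fun _ => ⟨0, by omega⟩, fun _ => ⟨1, by omega⟩), fun c hh => ?_⟩)⟩
    simp at hh
  have hplant : ∀ τ : PTest n (qK T (h + L)) (qD T (h + L) l) (n / qm T h H J) (qm T h H J),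
      HasOrthogonalPair (code₁ (d := d) code (τ.y ps)) := by
    intro τ
    rw [horth]
    refine ⟨ps τ.2.1.1.1 τ.2.1.2.1, ps τ.2.1.1.2 τ.2.1.2.2, ?_⟩
    have h1 : (fun c => τ.y ps ((false, ps τ.2.1.1.1 τ.2.1.2.1), c)) = τ.2.2.1.1 := by
      funext c
      simp [PTest.y, plant]
    have h2 : (fun c => τ.y ps ((true, ps τ.2.1.1.2 τ.2.1.2.2), c)) = τ.2.2.1.2 := by
      funext c
      simp [PTest.y, plant]
    rw [h1, h2]
    exact τ.2.2.2
  have hc0 : (0 : ℝ) ≤ 10 * ((T : ℝ) + 2) * pB T (qS₁ (h + L)) /
      ((n / qm T h H J : ℕ) : ℝ) ^ 2 := by positivity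
  -- averaging
  have hyao := yao_cost μ
    (fun A (τ : PTest n (qK T (h + L)) (qD T (h + L) l) (n / qm T h H J) (qm T h H J)) =>
      ¬ A.Accepts (code₁ code (τ.y ps)))
    (fun A (y : Co n (qD T (h + L) l) → Fin (qK T (h + L))) => A.Accepts (code₁ code y))
    (fun _ => 1 / 3)
    (fun y => if ∃ i j : Fin n, Off (fun c => y ((false, i), c)) (fun c => y ((true, j), c))
      then 1 else 1 / 3)
    (fun _ => by norm_num) (fun y => by split_ifs <;> norm_num)
    (by
      intro τ
      refine le_trans (μ.toOuterMeasure.mono ?_) (OVPR.compl_le μ _ (hμ _ (hval (τ.y ps))))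
      intro A hA hcor
      exact hA (hcor.2 (hplant τ)))
    (by
      intro y
      by_cases hh : ∃ i j : Fin n, Off (fun c => y ((false, i), c)) (fun c => y ((true, j), c))
      · rw [if_pos hh]
        exact OVPR.le_one μ _
      · rw [if_neg hh]
        refine le_trans (μ.toOuterMeasure.mono ?_) (OVPR.compl_le μ _ (hμ _ (hval y)))
        intro A hA hcor
        exact hh ((horth y).1 (hcor.1 hA)))
    (fun A => A.twoSided) (c := 10 * ((T : ℝ) + 2) * pB T (qS₁ (h + L)) /
      ((n / qm T h H J : ℕ) : ℝ) ^ 2)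
    (x := 19 / 20) hc0
    (fun A hA => det_bound hH hL hlL hnL hsL hT hm code ps (fun _ _ => rfl) A (hstep A hA))
  rw [← hE] at hyao
  have hoff := pr_off_le (n := n) (k := qK T (h + L)) (D := qD T (h + L) l) (l := l) hk2 rfl hnl
  have hb : (av fun y : Co n (qD T (h + L) l) → Fin (qK T (h + L)) =>
      if ∃ i j : Fin n, Off (fun c => y ((false, i), c)) (fun c => y ((true, j), c))
        then (1 : ℝ) else 1 / 3) ≤ 1 / 3 + 1 / 32 := by
    have h1 : (av fun y : Co n (qD T (h + L) l) → Fin (qK T (h + L)) =>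
        if ∃ i j : Fin n, Off (fun c => y ((false, i), c)) (fun c => y ((true, j), c))
          then (1 : ℝ) else 1 / 3) ≤
        av fun y : Co n (qD T (h + L) l) → Fin (qK T (h + L)) => 1 / 3 +
          (if ∃ i j : Fin n, Off (fun c => y ((false, i), c)) (fun c => y ((true, j), c))
            then (1 : ℝ) else 0) := by
      refine av_mono fun y => ?_
      split_ifs <;> norm_num
    refine h1.trans ?_
    rw [av_add, av_const]
    refine add_le_add_right (le_of_eq_of_le ?_ hoff) _
    unfold pr
    refine av_congr fun y => ?_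
    by_cases hh : ∃ i j : Fin n, Off (fun c => y ((false, i), c)) (fun c => y ((true, j), c))
    · rw [if_pos hh, if_pos hh]
    · rw [if_neg hh, if_neg hh]
  rw [av_const] at hyao
  -- the conclusion
  rcases eq_or_ne E ⊤ with hEt | hEt
  · rw [hEt]
    have h1 : ((⊤ : ENNReal) + 1) * (H : ENNReal) ^ 2 * (P : ENNReal) = ⊤ := by
      have h2 : (H : ENNReal) ^ 2 ≠ 0 := by
        have : (H : ENNReal) ≠ 0 := by exact_mod_cast (by omega : H ≠ 0)
        exact pow_ne_zero 2 this
      have h3 : (P : ENNReal) ≠ 0 := by exact_mod_cast (by omega : P ≠ 0)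
      rw [top_add, ENNReal.top_mul h2, ENNReal.top_mul h3]
    rw [h1]
    exact le_top
  obtain ⟨e, he0, he⟩ : ∃ e : ℝ, 0 ≤ e ∧ E = ENNReal.ofReal e :=
    ⟨E.toReal, ENNReal.toReal_nonneg, (ENNReal.ofReal_toReal hEt).symm⟩
  rw [he] at hyao ⊢
  have hav0 : (0 : ℝ) ≤ 1 / 3 + av fun y : Co n (qD T (h + L) l) → Fin (qK T (h + L)) =>
      if ∃ i j : Fin n, Off (fun c => y ((false, i), c)) (fun c => y ((true, j), c))
        then (1 : ℝ) else 1 / 3 := by
    have : (0 : ℝ) ≤ av fun y : Co n (qD T (h + L) l) → Fin (qK T (h + L)) =>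
      if ∃ i j : Fin n, Off (fun c => y ((false, i), c)) (fun c => y ((true, j), c))
        then (1 : ℝ) else 1 / 3 := av_nonneg fun y => by split_ifs <;> norm_num
    linarith
  rw [← ENNReal.ofReal_mul hc0, ← ENNReal.ofReal_add hav0 (mul_nonneg hc0 he0)] at hyao
  have h29 := (ENNReal.ofReal_le_ofReal_iff (add_nonneg hav0 (mul_nonneg hc0 he0))).1 hyao
  have hquarter : (1 : ℝ) / 4 ≤ 10 * ((T : ℝ) + 2) * pB T (qS₁ (h + L)) /
      ((n / qm T h H J : ℕ) : ℝ) ^ 2 * e := by
    linarith
  have hn'0 : (0 : ℝ) < ((n / qm T h H J : ℕ) : ℝ) := by exact_mod_cast hn'1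
  obtain ⟨B, hB⟩ : ∃ B : ℝ, B = (pB T (qS₁ (h + L)) : ℝ) := ⟨_, rfl⟩
  have hB0 : 0 ≤ B := by
    rw [hB]
    positivity
  have hT0 : (0 : ℝ) ≤ (T : ℝ) := Nat.cast_nonneg T
  rw [← hB] at hquarter
  have hsq : ((n / qm T h H J : ℕ) : ℝ) ^ 2 ≤ 40 * ((T : ℝ) + 2) * B * e := by
    have h1 : 10 * ((T : ℝ) + 2) * B / ((n / qm T h H J : ℕ) : ℝ) ^ 2 * e =
        (10 * ((T : ℝ) + 2) * B * e) / ((n / qm T h H J : ℕ) : ℝ) ^ 2 := by ring
    rw [h1, le_div_iff₀ (by positivity)] at hquarter
    linarith
  have hn2 : (n : ℝ) ≤ 2 * ((n / qm T h H J : ℕ) : ℝ) * (qm T h H J : ℝ) := by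
    have h1 := Nat.div_add_mod n (qm T h H J)
    have h2 := Nat.mod_lt n (show 0 < qm T h H J from hm1)
    have h3 : qm T h H J * 1 ≤ qm T h H J * (n / qm T h H J) := Nat.mul_le_mul_left _ hn'1
    have h4 : n ≤ 2 * (n / qm T h H J) * qm T h H J := by
      have h5 : 2 * (n / qm T h H J) * qm T h H J = 2 * (qm T h H J * (n / qm T h H J)) := by ring
      omega
    exact_mod_cast h4
  have hfin' : 160 * (qm T h H J : ℝ) ^ 2 * ((T : ℝ) + 2) * (B + 1) ≤ (H : ℝ) ^ 2 * P := by
    rw [hB]
    exact_mod_cast hfin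
  have hmain : (n : ℝ) ^ 2 ≤ e * (H : ℝ) ^ 2 * P := by
    have h1 : (n : ℝ) ^ 2 ≤ (2 * ((n / qm T h H J : ℕ) : ℝ) * (qm T h H J : ℝ)) ^ 2 :=
      pow_le_pow_left₀ (Nat.cast_nonneg n) hn2 2
    have h2 : (2 * ((n / qm T h H J : ℕ) : ℝ) * (qm T h H J : ℝ)) ^ 2 =
        4 * (qm T h H J : ℝ) ^ 2 * ((n / qm T h H J : ℕ) : ℝ) ^ 2 := by ring
    have h3 : 4 * (qm T h H J : ℝ) ^ 2 * ((n / qm T h H J : ℕ) : ℝ) ^ 2 ≤
        4 * (qm T h H J : ℝ) ^ 2 * (40 * ((T : ℝ) + 2) * B * e) :=
      mul_le_mul_of_nonneg_left hsq (by positivity)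
    have h4 : 4 * (qm T h H J : ℝ) ^ 2 * (40 * ((T : ℝ) + 2) * B * e) ≤
        160 * (qm T h H J : ℝ) ^ 2 * ((T : ℝ) + 2) * (B + 1) * e := by
      have h5 : 0 ≤ (qm T h H J : ℝ) ^ 2 * ((T : ℝ) + 2) * e := by positivity
      nlinarith
    have h5 : 160 * (qm T h H J : ℝ) ^ 2 * ((T : ℝ) + 2) * (B + 1) * e ≤ (H : ℝ) ^ 2 * P * e :=
      mul_le_mul_of_nonneg_right hfin' he0
    calc (n : ℝ) ^ 2 ≤ (H : ℝ) ^ 2 * P * e := by linarith
      _ = e * (H : ℝ) ^ 2 * P := by ring
  have h1 : (n : ENNReal) ^ 2 = ENNReal.ofReal ((n : ℝ) ^ 2) := by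
    rw [ENNReal.ofReal_pow (Nat.cast_nonneg n), ENNReal.ofReal_natCast]
  have h2 : ENNReal.ofReal (e * (H : ℝ) ^ 2 * P) =
      ENNReal.ofReal e * (H : ENNReal) ^ 2 * (P : ENNReal) := by
    rw [ENNReal.ofReal_mul (by positivity), ENNReal.ofReal_mul he0,
      ENNReal.ofReal_pow (Nat.cast_nonneg H), ENNReal.ofReal_natCast, ENNReal.ofReal_natCast]
  rw [h1]
  refine (ENNReal.ofReal_le_ofReal hmain).trans ?_
  rw [h2]
  gcongr
  exact le_self_add

end lower

/-! ### Main theorem -/

/-- There is a number `C` such that, for `n ≥ 2`, `H ≥ 1`, `L = ⌈log₂ (n (s+1) (J+1))⌉` and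
`d ≥ (C (h + L)) ^ (C (T+1))`, every probability distribution on circuits with `s` AND gates and `h`
step gates in `T` layers and `H` step gates on top, all with at most `J` jumps, which answers
Orthogonal Vectors correctly with probability at least `2/3` on every valid input, satisfies
`n² ≤ (1 + expected number of two-sided AND gates) * H² * (C (h + L)) ^ (C (T+1))`. On the other hand
there are circuits which are correct on all inputs, with `n² d + n²` AND gates in two layers and one
step gate on top, and also with no AND gates at all and `2 n d` step gates on top. -/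
theorem result :
    (∃ C : ℕ, ∀ n d T s h H J : ℕ, 2 ≤ n → 1 ≤ H →
      (C * (h + Nat.clog 2 (n * (s + 1) * (J + 1)))) ^ (C * (T + 1)) ≤ d →
      ∀ μ : PMF (Circuit n d T s h H), (∀ A ∈ μ.support, A.Steps J) →
        (∀ x : Input n d, IsValid x → (2 / 3 : ENNReal) ≤ μ.toOuterMeasure {A | A.CorrectOn x}) →
        (n : ENNReal) ^ 2 ≤ ((∑' A, μ A * (A.twoSided : ENNReal)) + 1) * (H : ENNReal) ^ 2 *
          (((C * (h + Nat.clog 2 (n * (s + 1) * (J + 1)))) ^ (C * (T + 1)) : ℕ) : ENNReal)) ∧
    (∀ n d : ℕ, ∃ A : Circuit n d 2 (n * n * d + n * n) 0 1, A.Steps 1 ∧ ∀ x, A.CorrectOn x) ∧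
    (∀ n d : ℕ, ∃ A : Circuit n d 0 0 0 (2 * n * d), A.Steps 1 ∧ ∀ x, A.CorrectOn x) :=
  ⟨lower, upper_pairs, upper_read⟩

end Pool.Agent.Results.MP_0f984e_lc.StepCircuits
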